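import Pool.Agent.H94.UD.Stage

/-!
# Adding a group element to a stage
-/

namespace Pool.Agent.H94.UD

theorem add_elem {T : Set ℝ} {m : ℝ} (hF : IsFree T m) {t0 : ℝ} (ht0 : t0 ∈ T) {G : Type}
    [Group G] (hG : IsLocallyFiniteGroup G) {V : Type} [MetricSpace V]
    (hV : IsUrysohn T V) (s : Stage G V) (x : G) (hne : s.Y.Nonempty) :
    ∃ t : Stage G V, s ≤ t ∧ x ∈ t.Γ ∧ (x ≠ 1 → ∃ w ∈ t.Y, t.a x w ≠ w) := by
  classical
  have := s.fin
  obtain ⟨y0, hy0⟩ := hne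
  let Γ' : Subgroup G := Subgroup.closure ((s.Γ : Set G) ∪ {x})
  have hfin : Finite Γ' := hG _ ((Set.toFinite _).union (Set.finite_singleton _))
  have hle : s.Γ ≤ Γ' := fun γ hγ => Subgroup.subset_closure (Or.inl hγ)
  have hx : x ∈ Γ' := Subgroup.subset_closure (Or.inr rfl)
  let X := ↥Γ' → Option ↥s.Y
  let F : Γ' → X → X := fun γ φ u => φ (γ⁻¹ * u)
  have hF1 : ∀ φ, F 1 φ = φ := by
    intro φ
    funext u
    change φ (1⁻¹ * u) = φ u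
    rw [inv_one, one_mul]
  have hFm : ∀ γ γ' φ, F (γ * γ') φ = F γ (F γ' φ) := by
    intro γ γ' φ
    funext u
    change φ ((γ * γ')⁻¹ * u) = φ (γ'⁻¹ * (γ⁻¹ * u))
    rw [mul_inv_rev, mul_assoc]
  have hFinj : ∀ γ, Function.Injective (F γ) := by
    intro γ φ ψ h
    have h1 := congrArg (F γ⁻¹) h
    rw [← hFm, ← hFm, inv_mul_cancel, hF1, hF1] at h1
    exact h1
  let j : V → X := fun y => if h : y ∈ s.Y then
      (fun u => if hu : (u : G) ∈ s.Γ then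
        some ⟨s.a ((u : G)⁻¹) y, s.maps _ (inv_mem hu) y h⟩ else none)
    else fun _ => none
  have hj1 : ∀ y (hy : y ∈ s.Y) (u : Γ') (hu : (u : G) ∈ s.Γ),
      j y u = some ⟨s.a ((u : G)⁻¹) y, s.maps _ (inv_mem hu) y hy⟩ := by
    intro y hy u hu
    simp only [j]
    rw [dif_pos hy, dif_pos hu]
  have hj2 : ∀ y (_ : y ∈ s.Y) (u : Γ') (_ : (u : G) ∉ s.Γ), j y u = none := by
    intro y hy u hu
    simp only [j]
    rw [dif_pos hy, dif_neg hu]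
  have hone : (1 : G) ∈ s.Γ := one_mem _
  have hj3 : ∀ y (hy : y ∈ s.Y), j y 1 = some ⟨y, hy⟩ := by
    intro y hy
    rw [hj1 y hy 1 hone]
    congr 1
    apply Subtype.ext
    change s.a ((((1 : Γ') : G))⁻¹) y = y
    rw [Subgroup.coe_one, inv_one]
    exact s.one y hy
  -- translates of the image of the points
  have hkey : ∀ (γ γ' : Γ') (y z : V), y ∈ s.Y → z ∈ s.Y → F γ (j y) = F γ' (j z) →
      ((γ⁻¹ * γ' : Γ') : G) ∈ s.Γ ∧ y = s.a ((γ⁻¹ * γ' : Γ') : G) z := by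
    intro γ γ' y z hy hz h
    have h1 := congrFun h γ
    change j y (γ⁻¹ * γ) = j z (γ'⁻¹ * γ) at h1
    rw [inv_mul_cancel, hj3 y hy] at h1
    by_cases hu : ((γ'⁻¹ * γ : Γ') : G) ∈ s.Γ
    · rw [hj1 z hz _ hu] at h1
      have h2 : (⟨y, hy⟩ : s.Y) = _ := Option.some.inj h1
      have h3 : y = s.a (((γ'⁻¹ * γ : Γ') : G)⁻¹) z := congrArg Subtype.val h2
      have h4 : (((γ'⁻¹ * γ : Γ') : G)⁻¹) = ((γ⁻¹ * γ' : Γ') : G) := by
        rw [← Subgroup.coe_inv, mul_inv_rev, inv_inv]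
      rw [h4] at h3
      refine ⟨?_, h3⟩
      rw [← h4]
      exact inv_mem hu
    · rw [hj2 z hz _ hu] at h1
      cases h1
  let C : X → X → Prop := fun φ ψ => ∃ q : Γ' × V × V, (q.2.1 ∈ s.Y ∧ q.2.2 ∈ s.Y) ∧
    F q.1 (j q.2.1) = φ ∧ F q.1 (j q.2.2) = ψ
  have hCu : ∀ (φ ψ : X) (γ γ' : Γ') (y z y' z' : V), y ∈ s.Y → z ∈ s.Y → y' ∈ s.Y → z' ∈ s.Y →
      F γ (j y) = φ → F γ (j z) = ψ → F γ' (j y') = φ → F γ' (j z') = ψ →
      dist y z = dist y' z' := by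
    intro φ ψ γ γ' y z y' z' hy hz hy' hz' h1 h2 h3 h4
    have h5 := hkey γ γ' y y' hy hy' (h1.trans h3.symm)
    have h6 := hkey γ γ' z z' hz hz' (h2.trans h4.symm)
    rw [h5.2, h6.2]
    exact s.iso _ h5.1 y' hy' z' hz'
  let c : X → X → ℝ := fun φ ψ => if φ = ψ then 0 else
    if h : C φ ψ then dist (Classical.choose h).2.1 (Classical.choose h).2.2 else t0
  have hc1 : ∀ φ ψ (γ : Γ') (y z : V), y ∈ s.Y → z ∈ s.Y → F γ (j y) = φ → F γ (j z) = ψ →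
      φ ≠ ψ → c φ ψ = dist y z := by
    intro φ ψ γ y z hy hz h1 h2 hne
    have h : C φ ψ := ⟨(γ, y, z), ⟨hy, hz⟩, h1, h2⟩
    simp only [c]
    rw [if_neg hne, dif_pos h]
    have h3 := Classical.choose_spec h
    exact hCu φ ψ _ _ _ _ _ _ h3.1.1 h3.1.2 hy hz h3.2.1 h3.2.2 h1 h2
  have hc2 : ∀ φ ψ, φ ≠ ψ → ¬ C φ ψ → c φ ψ = t0 := by
    intro φ ψ hne h
    simp only [c]
    rw [if_neg hne, dif_neg h]
  have hc0 : ∀ φ, c φ φ = 0 := by
    intro φ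
    exact if_pos rfl
  have hCs : ∀ φ ψ, C φ ψ → C ψ φ := by
    rintro φ ψ ⟨⟨γ, y, z⟩, ⟨hy, hz⟩, h1, h2⟩
    exact ⟨(γ, z, y), ⟨hz, hy⟩, h2, h1⟩
  have hcs : ∀ φ ψ, c φ ψ = c ψ φ := by
    intro φ ψ
    by_cases hne : φ = ψ
    · rw [hne]
    by_cases h : C φ ψ
    · obtain ⟨⟨γ, y, z⟩, ⟨hy, hz⟩, h1, h2⟩ := h
      rw [hc1 φ ψ γ y z hy hz h1 h2 hne, hc1 ψ φ γ z y hz hy h2 h1 (Ne.symm hne), dist_comm]
    · rw [hc2 φ ψ hne h, hc2 ψ φ (Ne.symm hne) (fun h' => h (hCs _ _ h'))]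
  have hmem : ∀ φ ψ, φ ≠ ψ → c φ ψ ∈ T := by
    intro φ ψ hne
    by_cases h : C φ ψ
    · obtain ⟨⟨γ, y, z⟩, ⟨hy, hz⟩, h1, h2⟩ := h
      rw [hc1 φ ψ γ y z hy hz h1 h2 hne]
      apply hV.delta
      intro hyz
      apply hne
      change F γ (j y) = φ at h1
      change F γ (j z) = ψ at h2
      rw [← h1, ← h2, hyz]
    · rw [hc2 φ ψ hne h]
      exact ht0
  let _ : MetricSpace X := mkMetric c m hF.pos hc0 hcs
    (fun x y hxy => ⟨hF.low _ (hmem x y hxy), hF.high _ (hmem x y hxy)⟩)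
  have hdist : ∀ x y : X, dist x y = c x y := fun _ _ => rfl
  have hCF : ∀ γ φ ψ, C φ ψ → C (F γ φ) (F γ ψ) := by
    rintro γ φ ψ ⟨⟨γ', y, z⟩, ⟨hy, hz⟩, h1, h2⟩
    refine ⟨(γ * γ', y, z), ⟨hy, hz⟩, ?_, ?_⟩
    · change F (γ * γ') (j y) = F γ φ
      rw [hFm, ← h1]
    · change F (γ * γ') (j z) = F γ ψ
      rw [hFm, ← h2]
  have hb : ∀ γ φ ψ, dist (mkHom F hF1 hFm γ φ) (mkHom F hF1 hFm γ ψ) = dist φ ψ := by
    intro γ φ ψ
    change c (F γ φ) (F γ ψ) = c φ ψ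
    by_cases hne : φ = ψ
    · rw [hne, hc0, hc0]
    have hne' : F γ φ ≠ F γ ψ := fun h => hne (hFinj γ h)
    by_cases h : C φ ψ
    · obtain ⟨⟨γ', y, z⟩, ⟨hy, hz⟩, h1, h2⟩ := h
      rw [hc1 φ ψ γ' y z hy hz h1 h2 hne]
      apply hc1 _ _ (γ * γ') y z hy hz _ _ hne'
      · rw [hFm, ← h1]
      · rw [hFm, ← h2]
    · rw [hc2 φ ψ hne h, hc2 _ _ hne']
      intro h'
      apply h
      have h3 := hCF γ⁻¹ _ _ h'
      rw [← hFm, ← hFm, inv_mul_cancel, hF1, hF1] at h3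
      exact h3
  obtain ⟨t, ht1, ht2, ht3, e, he1, he2, he3, he4⟩ := stage_extend hV s Γ' hfin hle s.Y
    subset_rfl X inferInstance (fun x y hxy => by rw [hdist]; exact hmem x y hxy)
    (mkHom F hF1 hFm) hb j (by
      intro y hy z hz
      rw [hdist]
      by_cases hyz : y = z
      · rw [hyz, hc0, dist_self]
      · apply hc1 _ _ 1 y z hy hz (hF1 _) (hF1 _)
        intro h
        apply hyz
        have h1 := congrFun h 1
        rw [hj3 y hy, hj3 z hz] at h1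
        exact congrArg Subtype.val (Option.some.inj h1)) (by
      intro γ hγ y hy
      rw [mkHom_apply]
      funext u
      change j y ((⟨γ, hle hγ⟩ : Γ')⁻¹ * u) = j (s.a γ y) u
      by_cases hu : (u : G) ∈ s.Γ
      · have hu' : (((⟨γ, hle hγ⟩ : Γ')⁻¹ * u : Γ') : G) ∈ s.Γ := by
          rw [Subgroup.coe_mul, Subgroup.coe_inv]
          exact mul_mem (inv_mem hγ) hu
        rw [hj1 y hy _ hu', hj1 _ (s.maps γ hγ y hy) u hu]
        congr 1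
        apply Subtype.ext
        change s.a ((((⟨γ, hle hγ⟩ : Γ')⁻¹ * u : Γ') : G)⁻¹) y = s.a ((u : G)⁻¹) (s.a γ y)
        rw [← s.mul _ (inv_mem hu) γ hγ y hy]
        congr 1
        rw [Subgroup.coe_mul, Subgroup.coe_inv, mul_inv_rev, inv_inv]
      · have hu' : (((⟨γ, hle hγ⟩ : Γ')⁻¹ * u : Γ') : G) ∉ s.Γ := by
          intro h
          apply hu
          rw [Subgroup.coe_mul, Subgroup.coe_inv] at h
          have h1 := mul_mem hγ h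
          rw [mul_inv_cancel_left] at h1
          exact h1
        rw [hj2 y hy _ hu', hj2 _ (s.maps γ hγ y hy) u hu])
  refine ⟨t, ht1, ?_, ?_⟩
  · rw [ht2]
    exact hx
  · intro hx1
    let φ0 : X := fun u => if u = 1 then some ⟨y0, hy0⟩ else none
    refine ⟨e φ0, he2 _, ?_⟩
    rw [he4 x hx]
    intro h
    have h1 := congrFun (he1.injective h) ⟨x, hx⟩
    rw [mkHom_apply] at h1
    change φ0 ((⟨x, hx⟩ : Γ')⁻¹ * ⟨x, hx⟩) = φ0 ⟨x, hx⟩ at h1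
    rw [inv_mul_cancel] at h1
    simp only [φ0] at h1
    rw [if_pos trivial, if_neg] at h1
    · cases h1
    · intro h2
      exact hx1 (congrArg Subtype.val h2)

end Pool.Agent.H94.UD
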