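import Pool.Agent.H94.UD.Stage

/-!
# Realising a partial isometry at a stage
-/

namespace Pool.Agent.H94.UD

/-- A finite nonempty set of reals is in bijection with a finite commutative group. -/
theorem exists_labels {T : Set ℝ} (hfin : T.Finite) (hne : T.Nonempty) :
    ∃ n : ℕ, n ≠ 0 ∧ Nonempty (ZMod n ≃ T) := by
  have : Finite T := hfin
  have : Nonempty T := hne.to_subtype
  have hn : Nat.card T ≠ 0 := Nat.card_pos.ne'
  have : NeZero (Nat.card T) := ⟨hn⟩
  exact ⟨Nat.card T, hn, ⟨((Finite.equivFin T).trans (ZMod.finEquiv (Nat.card T)).toEquiv).symm⟩⟩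

theorem add_iso {T : Set ℝ} {m : ℝ} (hF : IsFree T m) (hfinT : T.Finite) {t0 : ℝ} (ht0 : t0 ∈ T)
    {G : Type} [Group G] (hstar : Star G) {V : Type} [MetricSpace V]
    (hV : IsUrysohn T V) (s : Stage G V) (A : Finset V) (φ : V → V) (hA : A ⊆ s.Y)
    (hφ : ∀ a ∈ A, φ a ∈ s.Y) (hiso : ∀ a ∈ A, ∀ a' ∈ A, dist (φ a) (φ a') = dist a a') :
    ∃ t : Stage G V, s ≤ t ∧ ∃ g ∈ t.Γ, ∀ a ∈ A, t.a g a = φ a := by
  classical
  have hfinΓ := s.fin
  by_cases hne : s.Y.Nonempty
  swap
  · refine ⟨s, le_rfl, 1, one_mem _, ?_⟩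
    intro a ha
    exact absurd ⟨a, hA ha⟩ hne
  obtain ⟨y0, hy0⟩ := hne
  obtain ⟨n, hn, ⟨τ⟩⟩ := exists_labels hfinT ⟨t0, ht0⟩
  have : NeZero n := ⟨hn⟩
  have hcount := hV.countable
  obtain ⟨rank, hrank⟩ := exists_injective_nat V
  let Y := ↥s.Y
  let col : ZMod n → ℝ := fun c => (τ c : ℝ)
  let lab : ℝ → ZMod n := fun r => if h : r ∈ T then τ.symm ⟨r, h⟩ else 0
  have hcol : ∀ r ∈ T, col (lab r) = r := by
    intro r hr
    simp only [col, lab]
    rw [dif_pos hr, Equiv.apply_symm_apply]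
  have hcolT : ∀ c, col c ∈ T := fun c => (τ c).2
  let chi : Y → Y → ZMod n := fun x y => if rank x < rank y then lab (dist (x : V) y) else 0
  have hchi : ∀ x y : Y, x ≠ y → chi x y + chi y x = lab (dist (x : V) y) := by
    intro x y hxy
    have h1 : rank x ≠ rank y := fun h => hxy (Subtype.ext (hrank h))
    simp only [chi]
    rcases lt_or_gt_of_ne h1 with h | h
    · rw [if_pos h, if_neg (not_lt.2 h.le), add_zero]
    · rw [if_pos h, if_neg (not_lt.2 h.le), zero_add, dist_comm]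
  -- the permutation extending the partial isometry
  obtain ⟨P, hP⟩ : ∃ P : Equiv.Perm Y, ∀ a (ha : a ∈ A), P ⟨a, hA ha⟩ = ⟨φ a, hφ a ha⟩ := by
    let f : {y : Y // (y : V) ∈ A} → Y := fun y => ⟨φ y, hφ y y.2⟩
    have hf : Function.Injective f := by
      intro y z hyz
      have h1 : φ y = φ z := congrArg Subtype.val hyz
      have h2 := hiso y y.2 z z.2
      rw [h1, dist_self] at h2
      exact Subtype.ext (Subtype.ext (dist_eq_zero.1 h2.symm))
    let e : {y : Y // (y : V) ∈ A} ≃ {y : Y // y ∈ Set.range f} := Equiv.ofInjective f hf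
    refine ⟨e.extendSubtype, ?_⟩
    intro a ha
    rw [Equiv.extendSubtype_apply_of_mem e ⟨a, hA ha⟩ ha]
    rfl
  let D : Y → Y → ZMod n := fun x y =>
    if (x : V) ∈ A then chi (P x) (P y) - chi x y
    else if (y : V) ∈ A then -(chi (P y) (P x) - chi y x) else 0
  have hD : ∀ x y : Y, x ≠ y → D x y + D y x = 0 := by
    intro x y hxy
    simp only [D]
    by_cases hx : (x : V) ∈ A
    · by_cases hy : (y : V) ∈ A
      · rw [if_pos hx, if_pos hy]
        have h1 := hchi x y hxy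
        have h2 := hchi (P x) (P y) (fun h => hxy (P.injective h))
        have h3 : dist (P x : V) (P y) = dist (x : V) y := by
          have e1 : P x = ⟨φ x, hφ x hx⟩ := hP x hx
          have e2 : P y = ⟨φ y, hφ y hy⟩ := hP y hy
          rw [e1, e2]
          exact hiso x hx y hy
        rw [h3] at h2
        calc chi (P x) (P y) - chi x y + (chi (P y) (P x) - chi y x)
            = (chi (P x) (P y) + chi (P y) (P x)) - (chi x y + chi y x) := by ring
          _ = 0 := by rw [h1, h2, sub_self]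
      · rw [if_pos hx, if_neg hy, if_pos hx]
        ring
    · by_cases hy : (y : V) ∈ A
      · rw [if_neg hx, if_pos hy, if_pos hy]
        ring
      · rw [if_neg hx, if_neg hy, if_neg hy, if_neg hx]
        ring
  let X := Y × (Y → ZMod n)
  let c : X → X → ℝ := fun p q =>
    if p.1 = q.1 then (if p.2 = q.2 then 0 else t0) else col (p.2 q.1 + q.2 p.1)
  have hc0 : ∀ p, c p p = 0 := by
    intro p
    change (if p.1 = p.1 then (if p.2 = p.2 then 0 else t0) else _) = (0 : ℝ)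
    rw [if_pos rfl, if_pos rfl]
  have hcs : ∀ p q, c p q = c q p := by
    intro p q
    simp only [c]
    by_cases h1 : p.1 = q.1
    · rw [if_pos h1, if_pos h1.symm]
      simp only [eq_comm]
    · rw [if_neg h1, if_neg (Ne.symm h1), add_comm]
  have hmem : ∀ p q, p ≠ q → c p q ∈ T := by
    intro p q hpq
    simp only [c]
    by_cases h1 : p.1 = q.1
    · rw [if_pos h1, if_neg]
      · exact ht0
      · intro h2
        exact hpq (Prod.ext h1 h2)
    · rw [if_neg h1]
      exact hcolT _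
  let _ : MetricSpace X := mkMetric c m hF.pos hc0 hcs
    (fun x y hxy => ⟨hF.low _ (hmem x y hxy), hF.high _ (hmem x y hxy)⟩)
  have hdist : ∀ x y : X, dist x y = c x y := fun _ _ => rfl
  have hperm : ∀ π : Equiv.Perm X, (∀ p q, (π p).1 = (π q).1 ↔ p.1 = q.1) →
      (∀ p q : X, p.1 ≠ q.1 → (π p).2 (π q).1 + (π q).2 (π p).1 = p.2 q.1 + q.2 p.1) →
      ∀ p q, c (π p) (π q) = c p q := by
    intro π h1 h2 p q
    simp only [c]
    by_cases h3 : p.1 = q.1
    · rw [if_pos ((h1 p q).2 h3), if_pos h3]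
      have h4 : (π p).2 = (π q).2 ↔ p.2 = q.2 := by
        constructor
        · intro h
          have h5 : π p = π q := Prod.ext ((h1 p q).2 h3) h
          rw [π.injective h5]
        · intro h
          rw [Prod.ext h3 h]
      simp only [h4]
    · rw [if_neg (fun h => h3 ((h1 p q).1 h)), if_neg h3, h2 p q h3]
  -- the action of the old group
  let act : s.Γ →* Equiv.Perm Y := mkHom (fun γ y => ⟨s.a γ y, s.maps γ γ.2 y y.2⟩)
    (fun y => Subtype.ext (s.one y y.2))
    (fun γ γ' y => Subtype.ext (s.mul γ γ.2 γ' γ'.2 y y.2))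
  have hact : ∀ (γ : s.Γ) (y : Y), ((act γ y : Y) : V) = s.a γ y := fun _ _ => rfl
  let F : s.Γ → X → X := fun γ p => (act γ p.1, fun w =>
    p.2 ((act γ)⁻¹ w) - chi p.1 ((act γ)⁻¹ w) + chi (act γ p.1) w)
  have hF1 : ∀ p, F 1 p = p := by
    intro p
    refine Prod.ext ?_ ?_
    · change act 1 p.1 = p.1
      rw [map_one]
      rfl
    · funext w
      change p.2 ((act 1)⁻¹ w) - chi p.1 ((act 1)⁻¹ w) + chi (act 1 p.1) w = p.2 w
      rw [map_one, inv_one, Equiv.Perm.one_apply, Equiv.Perm.one_apply]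
      ring
  have hFm : ∀ γ γ' p, F (γ * γ') p = F γ (F γ' p) := by
    intro γ γ' p
    refine Prod.ext ?_ ?_
    · change act (γ * γ') p.1 = act γ (act γ' p.1)
      rw [map_mul]
      rfl
    · funext w
      change p.2 ((act (γ * γ'))⁻¹ w) - chi p.1 ((act (γ * γ'))⁻¹ w) + chi (act (γ * γ') p.1) w
        = (p.2 ((act γ')⁻¹ ((act γ)⁻¹ w)) - chi p.1 ((act γ')⁻¹ ((act γ)⁻¹ w))
          + chi (act γ' p.1) ((act γ)⁻¹ w)) - chi (act γ' p.1) ((act γ)⁻¹ w)
          + chi (act γ (act γ' p.1)) w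
      rw [map_mul, mul_inv_rev, Equiv.Perm.mul_apply, Equiv.Perm.mul_apply]
      ring
  have hbK : ∀ γ p q, c (mkHom F hF1 hFm γ p) (mkHom F hF1 hFm γ q) = c p q := by
    intro γ
    apply hperm
    · intro p q
      change act γ p.1 = act γ q.1 ↔ p.1 = q.1
      exact (act γ).injective.eq_iff
    · intro p q hpq
      change (p.2 ((act γ)⁻¹ (act γ q.1)) - chi p.1 ((act γ)⁻¹ (act γ q.1))
          + chi (act γ p.1) (act γ q.1)) +
        (q.2 ((act γ)⁻¹ (act γ p.1)) - chi q.1 ((act γ)⁻¹ (act γ p.1))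
          + chi (act γ q.1) (act γ p.1)) = _
      rw [perm_inv_apply, perm_inv_apply]
      have h1 := hchi p.1 q.1 hpq
      have h2 := hchi (act γ p.1) (act γ q.1) (fun h => hpq ((act γ).injective h))
      have h3 : dist ((act γ p.1 : Y) : V) (act γ q.1) = dist (p.1 : V) q.1 := by
        rw [hact, hact]
        exact s.iso γ γ.2 _ p.1.2 _ q.1.2
      rw [h3] at h2
      calc (p.2 q.1 - chi p.1 q.1 + chi (act γ p.1) (act γ q.1)) +
            (q.2 p.1 - chi q.1 p.1 + chi (act γ q.1) (act γ p.1))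
          = p.2 q.1 + q.2 p.1 - (chi p.1 q.1 + chi q.1 p.1)
            + (chi (act γ p.1) (act γ q.1) + chi (act γ q.1) (act γ p.1)) := by ring
        _ = p.2 q.1 + q.2 p.1 := by rw [h1, h2]; ring
  -- the new isometry
  let h : Equiv.Perm X :=
    { toFun := fun p => (P p.1, fun w => p.2 (P⁻¹ w) + D p.1 (P⁻¹ w))
      invFun := fun p => (P⁻¹ p.1, fun w => p.2 (P w) - D (P⁻¹ p.1) w)
      left_inv := by
        intro p
        refine Prod.ext ?_ ?_
        · exact perm_inv_apply P p.1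
        · funext w
          change (p.2 (P⁻¹ (P w)) + D p.1 (P⁻¹ (P w))) - D (P⁻¹ (P p.1)) w = p.2 w
          rw [perm_inv_apply, perm_inv_apply]
          ring
      right_inv := by
        intro p
        refine Prod.ext ?_ ?_
        · exact perm_apply_inv P p.1
        · funext w
          change (p.2 (P (P⁻¹ w)) - D (P⁻¹ p.1) (P⁻¹ w)) + D (P⁻¹ p.1) (P⁻¹ w) = p.2 w
          rw [perm_apply_inv]
          ring }
  have hh : ∀ p q, c (h p) (h q) = c p q := by
    apply hperm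
    · intro p q
      change P p.1 = P q.1 ↔ p.1 = q.1
      exact P.injective.eq_iff
    · intro p q hpq
      change (p.2 (P⁻¹ (P q.1)) + D p.1 (P⁻¹ (P q.1))) + (q.2 (P⁻¹ (P p.1)) +
        D q.1 (P⁻¹ (P p.1))) = _
      rw [perm_inv_apply, perm_inv_apply]
      calc p.2 q.1 + D p.1 q.1 + (q.2 p.1 + D q.1 p.1)
          = p.2 q.1 + q.2 p.1 + (D p.1 q.1 + D q.1 p.1) := by ring
        _ = p.2 q.1 + q.2 p.1 := by rw [hD _ _ hpq, add_zero]
  let K : Subgroup (Equiv.Perm X) :=
    { carrier := {π | ∀ p q, c (π p) (π q) = c p q}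
      mul_mem' := by
        intro π π' h1 h2 p q
        rw [Equiv.Perm.mul_apply, Equiv.Perm.mul_apply, h1, h2]
      one_mem' := fun p q => rfl
      inv_mem' := by
        intro π h1 p q
        have h2 := h1 (π⁻¹ p) (π⁻¹ q)
        rw [perm_apply_inv, perm_apply_inv] at h2
        exact h2.symm }
  obtain ⟨Γ', hfin', hle, b', hb1, ⟨g, hg⟩, hb2⟩ :=
    hstar s.Γ s.fin X inferInstance (mkHom F hF1 hFm) h
  have hb3 := hb2 K (fun γ => hbK γ) hh
  let j : V → X := fun v => if hv : v ∈ s.Y then (⟨v, hv⟩, chi ⟨v, hv⟩)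
    else (⟨y0, hy0⟩, chi ⟨y0, hy0⟩)
  have hj : ∀ v (hv : v ∈ s.Y), j v = (⟨v, hv⟩, chi ⟨v, hv⟩) := by
    intro v hv
    simp only [j]
    rw [dif_pos hv]
  obtain ⟨t, ht1, ht2, ht3, e, he1, he2, he3, he4⟩ := stage_extend hV s Γ' hfin' hle s.Y
    subset_rfl X inferInstance (fun x y hxy => by rw [hdist]; exact hmem x y hxy) b'
    (fun γ p q => hb3 γ p q) j (by
      intro y hy z hz
      rw [hj y hy, hj z hz, hdist]
      by_cases hyz : y = z
      · subst hyz
        rw [hc0, dist_self]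
      · simp only [c]
        have h1 : (⟨y, hy⟩ : Y) ≠ ⟨z, hz⟩ := fun h => hyz (congrArg Subtype.val h)
        rw [if_neg h1, hchi _ _ h1]
        apply hcol
        exact hV.delta _ _ hyz) (by
      intro γ hγ y hy
      rw [hj y hy, hj _ (s.maps γ hγ y hy)]
      have h1 := hb1 ⟨γ, hγ⟩
      rw [h1, mkHom_apply]
      refine Prod.ext ?_ ?_
      · rfl
      · funext w
        change chi ⟨y, hy⟩ ((act ⟨γ, hγ⟩)⁻¹ w) - chi ⟨y, hy⟩ ((act ⟨γ, hγ⟩)⁻¹ w) +
          chi (act ⟨γ, hγ⟩ ⟨y, hy⟩) w = chi ⟨s.a γ y, _⟩ w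
        rw [sub_self, zero_add]
        rfl)
  refine ⟨t, ht1, g, ?_, ?_⟩
  · rw [ht2]
    exact g.2
  · intro a ha
    have h1 := he4 g g.2 (j a)
    rw [he3 a (hA ha)] at h1
    rw [h1, ← he3 (φ a) (hφ a ha)]
    congr 1
    have h2 : b' ⟨(g : G), g.2⟩ = h := hg
    rw [h2, hj a (hA ha), hj _ (hφ a ha)]
    refine Prod.ext ?_ ?_
    · exact hP a ha
    · funext w
      change chi ⟨a, hA ha⟩ (P⁻¹ w) + D ⟨a, hA ha⟩ (P⁻¹ w) = chi ⟨φ a, _⟩ w
      simp only [D]
      rw [if_pos ha, perm_apply_inv, hP a ha]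
      ring

end Pool.Agent.H94.UD
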