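import Pool.Agent.H94.UD.Defs

/-!
# Urysohn spaces: basic facts
-/

namespace Pool.Agent.H94.UD

/-- Density in the topology of pointwise convergence, in terms of finite sets. -/
theorem dense_iff (U : Type) [MetricSpace U] (A : Set (U ≃ᵢ U)) :
    IsDenseIn U A ↔ ∀ (h : U ≃ᵢ U) (F : Finset U), ∃ g ∈ A, ∀ x ∈ F, g x = h x := by
  unfold IsDenseIn
  constructor
  · intro hA h F
    have hopen : @IsOpen _ (pointwiseTopology U) {g : U ≃ᵢ U | ∀ x ∈ F, g x = h x} := by
      unfold pointwiseTopology
      refine (@isOpen_induced_iff _ _ (@Pi.topologicalSpace U (fun _ => U) (fun _ => ⊥)) _ _).2 ?_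
      refine ⟨{f : U → U | ∀ x ∈ F, f x = h x}, ?_, rfl⟩
      refine (@isOpen_pi_iff U (fun _ => U) (fun _ => ⊥) _).2 ?_
      intro f hf
      refine ⟨F, fun x => {h x}, ?_, ?_⟩
      · intro a ha
        refine ⟨trivial, ?_⟩
        exact hf a ha
      · intro f' hf' x hx
        exact hf' x hx
    rw [@dense_iff_inter_open] at hA
    obtain ⟨g, hg1, hg2⟩ := hA _ hopen ⟨h, fun x _ => rfl⟩
    exact ⟨g, hg2, hg1⟩
  · intro H
    rw [@dense_iff_inter_open]
    intro O hO hne
    obtain ⟨h, hh⟩ := hne
    unfold pointwiseTopology at hO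
    obtain ⟨W, hW, rfl⟩ :=
      (@isOpen_induced_iff _ _ (@Pi.topologicalSpace U (fun _ => U) (fun _ => ⊥)) _ _).1 hO
    obtain ⟨F, u, hu1, hu2⟩ := (@isOpen_pi_iff U (fun _ => U) (fun _ => ⊥) _).1 hW _ hh
    obtain ⟨g, hg1, hg2⟩ := H h F
    refine ⟨g, ?_, hg1⟩
    apply hu2
    intro x hx
    have h1 : g x = h x := hg2 x hx
    change g x ∈ u x
    rw [h1]
    exact (hu1 x hx).2

/-- A metric on a type from a symmetric function with values between `m` and `2 * m` off the
diagonal. -/
@[reducible] def mkMetric {X : Type} (c : X → X → ℝ) (m : ℝ) (hm : 0 < m) (h0 : ∀ x, c x x = 0)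
    (hs : ∀ x y, c x y = c y x) (h1 : ∀ x y, x ≠ y → m ≤ c x y ∧ c x y ≤ 2 * m) :
    MetricSpace X where
  dist := c
  dist_self := h0
  dist_comm := hs
  dist_triangle := by
    intro x y z
    by_cases hxy : x = y
    · subst hxy
      rw [h0]
      simp
    by_cases hyz : y = z
    · subst hyz
      rw [h0]
      simp
    have a1 := (h1 x y hxy).1
    have a2 := (h1 y z hyz).1
    by_cases hxz : x = z
    · subst hxz
      rw [h0]
      linarith
    have a3 := (h1 x z hxz).2
    linarith
  eq_of_dist_eq_zero := by
    intro x y hxy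
    by_contra hne
    have := (h1 x y hne).1
    change c x y = 0 at hxy
    linarith

/-- A finite metric extension of a finite subset of a Urysohn space is realised over it. -/
theorem extend_over {D : Set ℝ} {V : Type} [MetricSpace V] (hV : IsUrysohn D V) (Y : Finset V)
    (X : Type) [MetricSpace X] (hX : Finite X) (hD : IsDeltaMetric D X) (j : V → X)
    (hj : ∀ y ∈ Y, ∀ z ∈ Y, dist (j y) (j z) = dist y z) :
    ∃ e : X → V, Isometry e ∧ ∀ y ∈ Y, e (j y) = y := by
  obtain ⟨e0, he0⟩ := hV.universal X hX hD
  have h1 : Isometry (fun y : Y => e0 (j y)) := by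
    apply Isometry.of_dist_eq
    intro y z
    rw [he0.dist_eq, hj y y.2 z z.2]
    rfl
  obtain ⟨h, hh⟩ := hV.homogeneous Y _ h1
  refine ⟨fun x => h.symm (e0 x), ?_, ?_⟩
  · exact h.symm.isometry.comp he0
  · intro y hy
    have := hh ⟨y, hy⟩
    change h y = e0 (j y) at this
    change h.symm (e0 (j y)) = y
    rw [← this]
    simp

/-- Free distance sets: all values lie between `m` and `2 * m` for some positive `m`. -/
structure IsFree (D : Set ℝ) (m : ℝ) : Prop where
  pos : 0 < m
  low : ∀ x ∈ D, m ≤ x
  high : ∀ x ∈ D, x ≤ 2 * m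

/-- The one-point extension property, for free distance sets. -/
theorem one_point {D : Set ℝ} {m : ℝ} (hF : IsFree D m) {V : Type} [MetricSpace V]
    (hV : IsUrysohn D V) (A : Finset V) (f : V → ℝ) (hf : ∀ a ∈ A, f a ∈ D) :
    ∃ p, p ∉ A ∧ ∀ a ∈ A, dist p a = f a := by
  classical
  let c : Option A → Option A → ℝ := fun x y =>
    match x, y with
    | none, none => 0
    | none, some b => f b
    | some a, none => f a
    | some a, some b => dist (a : V) b
  have h0 : ∀ x, c x x = 0 := by
    intro x
    cases x with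
    | none => rfl
    | some a => exact dist_self _
  have hs : ∀ x y, c x y = c y x := by
    intro x y
    cases x with
    | none => cases y with
      | none => rfl
      | some b => rfl
    | some a => cases y with
      | none => rfl
      | some b => exact dist_comm _ _
  have hmem : ∀ x y, x ≠ y → c x y ∈ D := by
    intro x y hxy
    cases x with
    | none => cases y with
      | none => exact absurd rfl hxy
      | some b => exact hf b b.2
    | some a => cases y with
      | none => exact hf a a.2
      | some b =>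
        apply hV.delta
        intro h
        apply hxy
        rw [Subtype.ext h]
  let _ : MetricSpace (Option A) := mkMetric c m hF.pos h0 hs
    (fun x y hxy => ⟨hF.low _ (hmem x y hxy), hF.high _ (hmem x y hxy)⟩)
  have hdist : ∀ x y : Option A, dist x y = c x y := fun _ _ => rfl
  obtain ⟨e, he1, he2⟩ := extend_over hV A (Option A) inferInstance
    (fun x y hxy => by rw [hdist]; exact hmem x y hxy)
    (fun v => if h : v ∈ A then some ⟨v, h⟩ else none) (by
      intro y hy z hz
      rw [dif_pos hy, dif_pos hz, hdist])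
  refine ⟨e none, ?_, ?_⟩
  · intro hmemA
    have h1 := he2 _ hmemA
    rw [dif_pos hmemA] at h1
    have h2 := he1.injective h1
    cases h2
  · intro a ha
    have h1 := he2 a ha
    rw [dif_pos ha] at h1
    have h2 : dist (e none) (e (some ⟨a, ha⟩)) = f a := by
      rw [he1.dist_eq, hdist]
    rw [h1] at h2
    exact h2

end Pool.Agent.H94.UD
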