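import Mathlib

/-!
# Urysohn metric spaces over countable distance value sets: definitions

The definitions of the problem MP_06b9ab_al: distance value sets, metric spaces with distances in
such a set, triangles and the equivalence of two distance value sets, Urysohn spaces, the topology
of pointwise convergence on the isometry group, locally finite groups, dense embeddings.
-/

namespace Pool.Agent.H94.UD

/-- A distance value set: a nonempty set of positive reals `D` such that `min (x + y) (sup D)` lies
in `D` for all `x`, `y` in `D` (where `sup D` is infinite when `D` is not bounded above). -/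
structure IsDistanceValueSet (D : Set ℝ) : Prop where
  nonempty : D.Nonempty
  pos : ∀ x ∈ D, 0 < x
  bounded : BddAbove D → ∀ x ∈ D, ∀ y ∈ D, min (x + y) (sSup D) ∈ D
  unbounded : ¬ BddAbove D → ∀ x ∈ D, ∀ y ∈ D, x + y ∈ D

/-- A metric space all of whose nonzero distances lie in `D`. -/
def IsDeltaMetric (D : Set ℝ) (X : Type) [MetricSpace X] : Prop :=
  ∀ x y : X, x ≠ y → dist x y ∈ D

/-- `(a, b, c)` is a `D`-triangle: `a`, `b`, `c` lie in `D` and are the distances
`d(x,y)`, `d(y,z)`, `d(z,x)` of some three-point metric space `{x, y, z}`. -/
def IsTriangle (D : Set ℝ) (a b c : ℝ) : Prop :=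
  a ∈ D ∧ b ∈ D ∧ c ∈ D ∧ ∃ m : MetricSpace (Fin 3), m.dist 0 1 = a ∧ m.dist 1 2 = b ∧
    m.dist 2 0 = c

/-- Two distance value sets are equivalent if some bijection between them preserves triangles in
both directions. -/
def Equivalent (S T : Set ℝ) : Prop :=
  ∃ t : S ≃ T, ∀ a b c : S, IsTriangle S a b c ↔ IsTriangle T (t a) (t b) (t c)

/-- `U` is the Urysohn `D`-metric space: a countable `D`-metric space that is ultrahomogeneous
(every isometric map from a finite subset into `U` extends to an isometry of `U` onto `U`) and
contains an isometric copy of every finite `D`-metric space. -/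
structure IsUrysohn (D : Set ℝ) (U : Type) [MetricSpace U] : Prop where
  countable : Countable U
  delta : IsDeltaMetric D U
  homogeneous : ∀ (A : Finset U) (φ : A → U), Isometry φ → ∃ h : U ≃ᵢ U, ∀ a : A, h a = φ a
  universal : ∀ (X : Type) [MetricSpace X], Finite X → IsDeltaMetric D X →
    ∃ e : X → U, Isometry e

/-- The topology of pointwise convergence on the isometry group of `U`, where `U` carries the
discrete topology. -/
@[reducible] def pointwiseTopology (U : Type) [MetricSpace U] : TopologicalSpace (U ≃ᵢ U) :=
  TopologicalSpace.induced (fun (g : U ≃ᵢ U) (x : U) => g x)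
    (@Pi.topologicalSpace U (fun _ => U) (fun _ => ⊥))

/-- `A` is a dense subset of the isometry group of `U`. -/
def IsDenseIn (U : Type) [MetricSpace U] (A : Set (U ≃ᵢ U)) : Prop :=
  @Dense (U ≃ᵢ U) (pointwiseTopology U) A

/-- The group `G` embeds as a dense subgroup of the isometry group of `U`. -/
def EmbedsDensely (G : Type) [Group G] (U : Type) [MetricSpace U] : Prop :=
  ∃ f : G →* (U ≃ᵢ U), Function.Injective f ∧ IsDenseIn U (Set.range f)

/-- A group is locally finite if its finitely generated subgroups are finite. -/
def IsLocallyFiniteGroup (G : Type) [Group G] : Prop :=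
  ∀ F : Set G, F.Finite → Finite (Subgroup.closure F)

end Pool.Agent.H94.UD
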