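import Pool.Agent.H94.UD.Basic

/-!
# Existence of the Urysohn spaces over finite free distance sets
-/

namespace Pool.Agent.H94.UD

/-- The one-point extension property. -/
def OnePoint (D : Set ℝ) (U : Type) [MetricSpace U] : Prop :=
  ∀ (A : Finset U) (f : U → ℝ), (∀ a ∈ A, f a ∈ D) → ∃ p, p ∉ A ∧ ∀ a ∈ A, dist p a = f a

theorem universal_of_onePoint {D : Set ℝ} {t0 : ℝ} (_ : t0 ∈ D) {U : Type} [MetricSpace U]
    (hE : OnePoint D U) (X : Type) [MetricSpace X] (hX : Finite X) (hD : IsDeltaMetric D X) :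
    ∃ e : X → U, Isometry e := by
  classical
  have := Fintype.ofFinite X
  obtain ⟨u0, -, -⟩ := hE ∅ (fun _ => t0) (by simp)
  have main : ∀ I : Finset X, ∃ e : X → U, ∀ x ∈ I, ∀ y ∈ I, dist (e x) (e y) = dist x y := by
    intro I
    induction I using Finset.induction_on with
    | empty => exact ⟨fun _ => u0, by simp⟩
    | insert x0 I hx0 ih =>
      obtain ⟨e, he⟩ := ih
      have hinj : ∀ x ∈ I, ∀ y ∈ I, e x = e y → x = y := by
        intro x hx y hy h
        have h1 := he x hx y hy
        rw [h, dist_self] at h1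
        exact dist_eq_zero.1 h1.symm
      let f : U → ℝ := fun u => if h : ∃ x ∈ I, e x = u then dist x0 (Classical.choose h) else t0
      have hf1 : ∀ x ∈ I, f (e x) = dist x0 x := by
        intro x hx
        have h : ∃ x' ∈ I, e x' = e x := ⟨x, hx, rfl⟩
        simp only [f]
        rw [dif_pos h]
        have h1 := Classical.choose_spec h
        rw [hinj _ h1.1 x hx h1.2]
      obtain ⟨p, -, hp⟩ := hE (I.image e) f (by
        intro a ha
        obtain ⟨x, hx, rfl⟩ := Finset.mem_image.1 ha
        rw [hf1 x hx]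
        apply hD
        intro h
        rw [h] at hx0
        exact hx0 hx)
      have hp1 : ∀ x ∈ I, dist p (e x) = dist x0 x := by
        intro x hx
        rw [hp _ (Finset.mem_image_of_mem _ hx), hf1 x hx]
      refine ⟨fun x => if x = x0 then p else e x, ?_⟩
      intro x hx y hy
      dsimp only
      by_cases c1 : x = x0
      · by_cases c2 : y = x0
        · rw [if_pos c1, if_pos c2, c1, c2, dist_self, dist_self]
        · rw [if_pos c1, if_neg c2, c1]
          rcases Finset.mem_insert.1 hy with h | h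
          · exact absurd h c2
          · exact hp1 y h
      · by_cases c2 : y = x0
        · rw [if_neg c1, if_pos c2, c2, dist_comm, dist_comm x]
          rcases Finset.mem_insert.1 hx with h | h
          · exact absurd h c1
          · exact hp1 x h
        · rw [if_neg c1, if_neg c2]
          rcases Finset.mem_insert.1 hx with h | h
          · exact absurd h c1
          · rcases Finset.mem_insert.1 hy with h' | h'
            · exact absurd h' c2
            · exact he x h y h'
  obtain ⟨e, he⟩ := main Finset.univ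
  exact ⟨e, Isometry.of_dist_eq (fun x y => he x (Finset.mem_univ _) y (Finset.mem_univ _))⟩

/-- One step of back and forth. -/
theorem step_forth {D : Set ℝ} {U : Type} [MetricSpace U] [DecidableEq U] (hD : IsDeltaMetric D U)
    (hE : OnePoint D U) (F : Finset (U × U))
    (hF : ∀ p ∈ F, ∀ q ∈ F, dist p.1 q.1 = dist p.2 q.2) (u : U) :
    ∃ v, ∀ p ∈ insert (u, v) F, ∀ q ∈ insert (u, v) F, dist p.1 q.1 = dist p.2 q.2 := by
  classical
  by_cases hu : ∃ p ∈ F, p.1 = u
  · obtain ⟨p, hp, rfl⟩ := hu
    refine ⟨p.2, ?_⟩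
    have : (p.1, p.2) = p := rfl
    rw [this, Finset.insert_eq_of_mem hp]
    exact hF
  · let f : U → ℝ := fun v => if h : ∃ p ∈ F, p.2 = v then dist u (Classical.choose h).1 else 0
    have hf1 : ∀ p ∈ F, f p.2 = dist u p.1 := by
      intro p hp
      have h : ∃ p' ∈ F, p'.2 = p.2 := ⟨p, hp, rfl⟩
      simp only [f]
      rw [dif_pos h]
      have h1 := Classical.choose_spec h
      have h2 := hF _ h1.1 p hp
      rw [h1.2, dist_self] at h2
      rw [dist_eq_zero.1 h2]
    obtain ⟨v, -, hv⟩ := hE (F.image Prod.snd) f (by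
      intro a ha
      obtain ⟨p, hp, rfl⟩ := Finset.mem_image.1 ha
      rw [hf1 p hp]
      apply hD
      intro h
      exact hu ⟨p, hp, h.symm⟩)
    have hv1 : ∀ p ∈ F, dist u p.1 = dist v p.2 := by
      intro p hp
      rw [hv _ (Finset.mem_image_of_mem _ hp), hf1 p hp]
    refine ⟨v, ?_⟩
    intro p hp q hq
    rcases Finset.mem_insert.1 hp with h | h
    · rcases Finset.mem_insert.1 hq with h' | h'
      · rw [h, h', dist_self, dist_self]
      · rw [h]
        exact hv1 q h'
    · rcases Finset.mem_insert.1 hq with h' | h'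
      · rw [h', dist_comm, dist_comm p.2]
        exact hv1 p h
      · exact hF p h q h'

theorem isUrysohn_of_onePoint {D : Set ℝ} {t0 : ℝ} (ht0 : t0 ∈ D) {U : Type} [MetricSpace U]
    (hc : Countable U) (hD : IsDeltaMetric D U) (hE : OnePoint D U) : IsUrysohn D U := by
  classical
  refine ⟨hc, hD, ?_, fun X _ hX hXD => universal_of_onePoint ht0 hE X hX hXD⟩
  intro A φ hφ
  let Pr := {F : Finset (U × U) // ∀ p ∈ F, ∀ q ∈ F, dist p.1 q.1 = dist p.2 q.2}
  have hforth : ∀ u : U, IsCofinal {F : Pr | ∃ v, (u, v) ∈ F.1} := by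
    intro u F
    obtain ⟨v, hv⟩ := step_forth hD hE F.1 F.2 u
    exact ⟨⟨insert (u, v) F.1, hv⟩, ⟨v, Finset.mem_insert_self _ _⟩, Finset.subset_insert _ _⟩
  have hback : ∀ v : U, IsCofinal {F : Pr | ∃ u, (u, v) ∈ F.1} := by
    intro v F
    obtain ⟨u, hu⟩ := step_forth hD hE (F.1.image Prod.swap) (by
      intro p hp q hq
      obtain ⟨p', hp', rfl⟩ := Finset.mem_image.1 hp
      obtain ⟨q', hq', rfl⟩ := Finset.mem_image.1 hq
      exact (F.2 p' hp' q' hq').symm) v
    refine ⟨⟨insert (u, v) F.1, ?_⟩, ⟨u, Finset.mem_insert_self _ _⟩, Finset.subset_insert _ _⟩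
    have key : ∀ p ∈ insert (u, v) F.1, Prod.swap p ∈ insert (v, u) (F.1.image Prod.swap) := by
      intro p hp
      rcases Finset.mem_insert.1 hp with h | h
      · rw [h]
        exact Finset.mem_insert_self _ _
      · exact Finset.mem_insert_of_mem (Finset.mem_image_of_mem _ h)
    intro p hp q hq
    exact (hu _ (key p hp) _ (key q hq)).symm
  let 𝒟 : U ⊕ U → Order.Cofinal Pr := fun i =>
    match i with
    | Sum.inl u => ⟨_, hforth u⟩
    | Sum.inr v => ⟨_, hback v⟩
  obtain ⟨enc⟩ : Nonempty (Encodable (U ⊕ U)) := nonempty_encodable _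
  let F0 : Pr := ⟨Finset.univ.image (fun a : A => ((a : U), φ a)), by
    intro p hp q hq
    obtain ⟨a, -, rfl⟩ := Finset.mem_image.1 hp
    obtain ⟨b, -, rfl⟩ := Finset.mem_image.1 hq
    exact (hφ.dist_eq a b).symm⟩
  let I := Order.idealOfCofinals F0 𝒟
  have hF0 : F0 ∈ I := Order.mem_idealOfCofinals F0 𝒟
  have hdir : ∀ F ∈ I, ∀ F' ∈ I, ∃ F'' ∈ I, F ≤ F'' ∧ F' ≤ F'' := by
    intro F hF F' hF'
    exact I.directed F hF F' hF'
  let R : U → U → Prop := fun u v => ∃ F ∈ I, (u, v) ∈ F.1
  have hR : ∀ u v u' v', R u v → R u' v' → dist u u' = dist v v' := by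
    rintro u v u' v' ⟨F, hF, h1⟩ ⟨F', hF', h2⟩
    obtain ⟨F'', -, h3, h4⟩ := hdir F hF F' hF'
    exact F''.2 _ (h3 h1) _ (h4 h2)
  have hR1 : ∀ u, ∃ v, R u v := by
    intro u
    obtain ⟨F, ⟨v, hv⟩, hF⟩ := Order.cofinal_meets_idealOfCofinals F0 𝒟 (Sum.inl u)
    exact ⟨v, F, hF, hv⟩
  have hR2 : ∀ v, ∃ u, R u v := by
    intro v
    obtain ⟨F, ⟨u, hu⟩, hF⟩ := Order.cofinal_meets_idealOfCofinals F0 𝒟 (Sum.inr v)
    exact ⟨u, F, hF, hu⟩
  choose h hh using hR1
  choose k hk using hR2
  have h1 : ∀ u, k (h u) = u := by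
    intro u
    have := hR _ _ _ _ (hk (h u)) (hh u)
    rw [dist_self] at this
    exact dist_eq_zero.1 this
  have h2 : ∀ v, h (k v) = v := by
    intro v
    have := hR _ _ _ _ (hk v) (hh (k v))
    rw [dist_self] at this
    exact (dist_eq_zero.1 this.symm).symm
  refine ⟨⟨⟨h, k, h1, h2⟩, Isometry.of_dist_eq (fun u u' => (hR _ _ _ _ (hh u) (hh u')).symm)⟩, ?_⟩
  intro a
  change h a = φ a
  have h3 : R a (φ a) := ⟨F0, hF0, Finset.mem_image.2 ⟨a, Finset.mem_univ _, rfl⟩⟩
  have := hR _ _ _ _ (hh a) h3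
  rw [dist_self] at this
  exact dist_eq_zero.1 this.symm

/-- A copy of the natural numbers. -/
structure Pt where
  /-- the number -/
  val : ℕ

theorem Pt.ext' {a b : Pt} (h : a.val = b.val) : a = b := by
  cases a
  cases b
  cases h
  rfl

theorem exists_urysohn {T : Set ℝ} {m : ℝ} (hF : IsFree T m) (hfin : T.Finite)
    (hne : T.Nonempty) : ∃ (U : Type) (_ : MetricSpace U), IsUrysohn T U := by
  classical
  obtain ⟨t0, ht0⟩ := hne
  have : Finite T := hfin
  let b := Nat.card T + 1
  have hcardpos : 0 < Nat.card T := by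
    have : Nonempty T := ⟨⟨t0, ht0⟩⟩
    exact Nat.card_pos
  have hb : 1 < b := by
    change 1 < Nat.card T + 1
    omega
  let τ : T ≃ Fin (Nat.card T) := Finite.equivFin T
  let col : ℕ → ℝ := fun d => if h : d < Nat.card T then ((τ.symm ⟨d, h⟩ : T) : ℝ) else t0
  have hcol : ∀ d, col d ∈ T := by
    intro d
    simp only [col]
    split_ifs with h
    · exact (τ.symm ⟨d, h⟩).2
    · exact ht0
  let lab : ℝ → ℕ := fun r => if h : r ∈ T then ((τ ⟨r, h⟩ : Fin _) : ℕ) else 0
  have hlab : ∀ r ∈ T, col (lab r) = r := by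
    intro r hr
    have h1 : lab r = ((τ ⟨r, hr⟩ : Fin _) : ℕ) := by
      simp only [lab]
      rw [dif_pos hr]
    simp only [col]
    rw [h1, dif_pos (τ ⟨r, hr⟩).2]
    change ((τ.symm (τ ⟨r, hr⟩) : T) : ℝ) = r
    rw [Equiv.symm_apply_apply]
  have hlabb : ∀ r, lab r < b := by
    intro r
    simp only [lab]
    split_ifs with h
    · have := (τ ⟨r, h⟩).2
      change _ < Nat.card T + 1
      omega
    · change 0 < Nat.card T + 1
      omega
  let dig : ℕ → ℕ → ℕ := fun i j => (Nat.digits b j).getD i 0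
  let c : Pt → Pt → ℝ := fun x y =>
    if x.val = y.val then 0 else if x.val < y.val then col (dig x.val y.val)
      else col (dig y.val x.val)
  have hc0 : ∀ x, c x x = 0 := by
    intro x
    exact if_pos rfl
  have hcs : ∀ x y, c x y = c y x := by
    intro x y
    simp only [c]
    by_cases h1 : x.val = y.val
    · rw [if_pos h1, if_pos h1.symm]
    · rcases lt_or_gt_of_ne h1 with h2 | h2
      · rw [if_neg h1, if_pos h2, if_neg (Ne.symm h1), if_neg (not_lt.2 h2.le)]
      · rw [if_neg h1, if_neg (not_lt.2 h2.le), if_neg (Ne.symm h1), if_pos h2]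
  have hmem : ∀ x y, x ≠ y → c x y ∈ T := by
    intro x y hxy
    simp only [c]
    have h1 : x.val ≠ y.val := fun h => hxy (Pt.ext' h)
    rw [if_neg h1]
    split_ifs
    · exact hcol _
    · exact hcol _
  let inst : MetricSpace Pt := mkMetric c m hF.pos hc0 hcs
    (fun x y hxy => ⟨hF.low _ (hmem x y hxy), hF.high _ (hmem x y hxy)⟩)
  have hdist : ∀ x y : Pt, dist x y = c x y := fun _ _ => rfl
  refine ⟨Pt, inst, ?_⟩
  apply isUrysohn_of_onePoint ht0
  · have hinj : Function.Injective Pt.val := fun _ _ h => Pt.ext' h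
    exact hinj.countable
  · intro x y hxy
    rw [hdist]
    exact hmem x y hxy
  · intro A f hf
    let N := A.sup Pt.val + 1
    have hN : ∀ a ∈ A, a.val < N := by
      intro a ha
      have := Finset.le_sup (f := Pt.val) ha
      change a.val < A.sup Pt.val + 1
      omega
    let L : List ℕ := (List.range N).map (fun i => lab (f ⟨i⟩)) ++ [1]
    have hLdig : Nat.digits b (Nat.ofDigits b L) = L := by
      apply Nat.digits_ofDigits b hb
      · intro l hl
        rcases List.mem_append.1 hl with h | h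
        · obtain ⟨i, -, rfl⟩ := List.mem_map.1 h
          exact hlabb _
        · rw [List.mem_singleton.1 h]
          exact hb
      · intro h
        simp [L]
    have hlen : L.length = N + 1 := by simp [L]
    have hbig : N < Nat.ofDigits b L := by
      have h1 : N < (Nat.digits b (Nat.ofDigits b L)).length := by
        rw [hLdig, hlen]
        omega
      rw [Nat.lt_digits_length_iff hb] at h1
      exact lt_of_lt_of_le (Nat.lt_pow_self hb) h1
    have hdg : ∀ a ∈ A, dig a.val (Nat.ofDigits b L) = lab (f a) := by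
      intro a ha
      simp only [dig]
      rw [hLdig]
      have h1 := hN a ha
      simp only [L]
      rw [List.getD_append _ _ _ _ (by simpa using h1)]
      simp [List.getD, h1]
    refine ⟨⟨Nat.ofDigits b L⟩, ?_, ?_⟩
    · intro h
      have := hN _ h
      change Nat.ofDigits b L < N at this
      omega
    · intro a ha
      rw [dist_comm, hdist]
      have h1 : a.val < Nat.ofDigits b L := (hN a ha).trans hbig
      simp only [c]
      rw [if_neg h1.ne, if_pos h1, hdg a ha, hlab _ (hf a ha)]

end Pool.Agent.H94.UD
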