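import Pool.Agent.H94.UD.Basic

/-!
# Urysohn spaces over finite free distance sets: the key lemma
-/

namespace Pool.Agent.H94.UD

/-- A nontrivial isometry moves a point outside every finite set. -/
theorem moves_outside {S : Set ℝ} {m : ℝ} {U : Type} [MetricSpace U] (hF : IsFree S m)
    (hU : IsUrysohn S U) {s1 s2 : ℝ} (h1 : s1 ∈ S) (h2 : s2 ∈ S) (h12 : s1 ≠ s2)
    (g : U ≃ᵢ U) (hg : g ≠ 1) (F : Finset U) : ∃ p, p ∉ F ∧ g p ≠ p := by
  classical
  obtain ⟨x, hx⟩ : ∃ x, g x ≠ x := by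
    by_contra hcon
    push Not at hcon
    exact hg (IsometryEquiv.ext hcon)
  obtain ⟨p, hp1, hp2⟩ := one_point hF hU (insert x (insert (g x) F))
    (fun a => if a = x then s1 else s2) (by
      intro a _
      split_ifs
      · exact h1
      · exact h2)
  refine ⟨p, fun h => hp1 (by simp [h]), ?_⟩
  intro hgp
  have e1 := hp2 x (by simp)
  have e2 := hp2 (g x) (by simp)
  rw [if_pos rfl] at e1
  rw [if_neg hx] at e2
  have e3 : dist (g p) (g x) = dist p x := g.dist_eq p x
  rw [hgp, e1, e2] at e3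
  exact h12 e3.symm

/-- Finitely many conditions force a trivial stabiliser in a finite group. -/
theorem triv_stab {S : Set ℝ} {m : ℝ} {U : Type} [MetricSpace U] (hF : IsFree S m)
    (hU : IsUrysohn S U) {s1 s2 : ℝ} (h1 : s1 ∈ S) (h2 : s2 ∈ S) (h12 : s1 ≠ s2)
    (Γ : Subgroup (U ≃ᵢ U)) (E : Finset Γ) :
    ∃ (A : Finset U) (f : U → ℝ), (∀ a ∈ A, f a ∈ S) ∧
      ∀ p, (∀ a ∈ A, dist p a = f a) → ∀ γ ∈ E, γ ≠ 1 → (γ : U ≃ᵢ U) p ≠ p := by
  classical
  induction E using Finset.induction_on with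
  | empty => exact ⟨∅, fun _ => s1, by simp, by simp⟩
  | insert γ E _ ih =>
    obtain ⟨A, f, hf, hA⟩ := ih
    by_cases hγ : γ = 1
    · refine ⟨A, f, hf, ?_⟩
      intro p hp γ' hγ' hne
      rcases Finset.mem_insert.1 hγ' with h | h
      · exact absurd (h.trans hγ) hne
      · exact hA p hp γ' h hne
    · have hγ' : (γ : U ≃ᵢ U)⁻¹ ≠ 1 := by
        intro h
        apply hγ
        apply Subtype.ext
        simpa using h
      obtain ⟨a, ha1, ha2⟩ := moves_outside hF hU h1 h2 h12 _ hγ' (A ∪ A.image (γ : U ≃ᵢ U))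
      have ha3 : a ∉ A := fun h => ha1 (Finset.mem_union_left _ h)
      have hinv : (γ : U ≃ᵢ U) ((γ : U ≃ᵢ U)⁻¹ a) = a := by
        rw [← IsometryEquiv.mul_apply]
        simp
      have ha4 : (γ : U ≃ᵢ U)⁻¹ a ∉ A := by
        intro h
        apply ha1
        apply Finset.mem_union_right
        rw [Finset.mem_image]
        exact ⟨_, h, hinv⟩
      refine ⟨insert a (insert ((γ : U ≃ᵢ U)⁻¹ a) A),
        fun x => if x = a then s1 else if x = (γ : U ≃ᵢ U)⁻¹ a then s2 else f x, ?_, ?_⟩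
      · intro x hx
        dsimp only
        split_ifs with c1 c2
        · exact h1
        · exact h2
        · apply hf
          rcases Finset.mem_insert.1 hx with h | h
          · exact absurd h c1
          · rcases Finset.mem_insert.1 h with h | h
            · exact absurd h c2
            · exact h
      · intro p hp γ' hγ'' hne
        rcases Finset.mem_insert.1 hγ'' with h | h
        · rw [h]
          intro hfix
          have e1 := hp a (by simp)
          have e2 := hp ((γ : U ≃ᵢ U)⁻¹ a) (by simp)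
          dsimp only at e1 e2
          rw [if_pos rfl] at e1
          rw [if_neg ha2, if_pos rfl] at e2
          have e3 : dist ((γ : U ≃ᵢ U) p) ((γ : U ≃ᵢ U) ((γ : U ≃ᵢ U)⁻¹ a))
              = dist p ((γ : U ≃ᵢ U)⁻¹ a) := IsometryEquiv.dist_eq _ _ _
          rw [hfix, hinv, e1, e2] at e3
          exact h12 e3
        · refine hA p ?_ γ' h hne
          intro x hx
          have e1 := hp x (by simp [hx])
          have c1 : x ≠ a := fun h' => ha3 (h' ▸ hx)
          have c2 : x ≠ (γ : U ≃ᵢ U)⁻¹ a := fun h' => ha4 (h' ▸ hx)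
          dsimp only at e1
          rw [if_neg c1, if_neg c2] at e1
          exact e1

/-- The pigeonhole step: there are self-distances which are realised over all extensions of
some finite condition. -/
theorem good_type {S : Set ℝ} {m : ℝ} {U : Type} [MetricSpace U] (hF : IsFree S m)
    (hfin : S.Finite)
    (hU : IsUrysohn S U) {s1 s2 : ℝ} (h1 : s1 ∈ S) (h2 : s2 ∈ S) (h12 : s1 ≠ s2)
    (Γ : Subgroup (U ≃ᵢ U)) [Finite Γ] :
    ∃ (δ : Γ → ℝ) (A : Finset U) (f : U → ℝ), (∀ a ∈ A, f a ∈ S) ∧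
      (∀ γ, γ ≠ 1 → δ γ ∈ S) ∧
      ∀ (A' : Finset U) (f' : U → ℝ), A ⊆ A' → (∀ a ∈ A', f' a ∈ S) → (∀ a ∈ A, f' a = f a) →
        ∃ p, p ∉ A' ∧ (∀ a ∈ A', dist p a = f' a) ∧ ∀ γ : Γ, dist p ((γ : U ≃ᵢ U) p) = δ γ := by
  classical
  have := Fintype.ofFinite Γ
  obtain ⟨A0, f0, hf0, hA0⟩ := triv_stab hF hU h1 h2 h12 Γ Finset.univ
  let R : Finset U → (U → ℝ) → Set (Γ → ℝ) := fun A f =>
    {δ | ∃ p, p ∉ A ∧ (∀ a ∈ A, dist p a = f a) ∧ ∀ γ : Γ, dist p ((γ : U ≃ᵢ U) p) = δ γ}
  have hRfin : ∀ A f, (R A f).Finite := by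
    intro A f
    have hf1 : (Set.univ.pi (fun _ : Γ => insert (0 : ℝ) S)).Finite :=
      Set.Finite.pi' (fun _ => hfin.insert 0) |>.subset (by
        intro δ hδ γ
        exact hδ γ trivial)
    apply hf1.subset
    rintro δ ⟨p, _, _, hp⟩ γ _
    rw [← hp γ]
    by_cases hpp : p = (γ : U ≃ᵢ U) p
    · rw [← hpp, dist_self]
      exact Set.mem_insert _ _
    · exact Set.mem_insert_of_mem _ (hU.delta _ _ hpp)
  have hex : ∃ n, ∃ (A : Finset U) (f : U → ℝ), (∀ a ∈ A, f a ∈ S) ∧ A0 ⊆ A ∧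
      (∀ a ∈ A0, f a = f0 a) ∧ (R A f).ncard = n :=
    ⟨_, A0, f0, hf0, subset_rfl, fun _ _ => rfl, rfl⟩
  obtain ⟨A, f, hf, hAA, hff, hn⟩ := Nat.find_spec hex
  obtain ⟨p0, hp0, hp0'⟩ := one_point hF hU A f hf
  refine ⟨fun γ => dist p0 ((γ : U ≃ᵢ U) p0), A, f, hf, ?_, ?_⟩
  · intro γ hγ
    apply hU.delta
    intro h
    refine hA0 p0 ?_ γ (Finset.mem_univ _) hγ h.symm
    intro a ha
    rw [hp0' a (hAA ha), hff a ha]
  · intro A' f' hAA' hf' hff'
    have hsub : R A' f' ⊆ R A f := by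
      rintro δ ⟨p, hp1, hp2, hp3⟩
      exact ⟨p, fun h => hp1 (hAA' h), fun a ha => (hp2 a (hAA' ha)).trans (hff' a ha), hp3⟩
    have hmin : Nat.find hex ≤ (R A' f').ncard := by
      apply Nat.find_min'
      exact ⟨A', f', hf', hAA.trans hAA', fun a ha => (hff' a (hAA ha)).trans (hff a ha), rfl⟩
    have heq : R A' f' = R A f := by
      apply Set.eq_of_subset_of_ncard_le hsub _ (hRfin A f)
      rw [hn]
      exact hmin
    have hmem : (fun γ : Γ => dist p0 ((γ : U ≃ᵢ U) p0)) ∈ R A f :=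
      ⟨p0, hp0, hp0', fun _ => rfl⟩
    rw [← heq] at hmem
    exact hmem

open Classical in
/-- Points with prescribed mutual distances of their orbits under a finite group. -/
theorem good_points {S : Set ℝ} {m : ℝ} {U : Type} [MetricSpace U] (hF : IsFree S m)
    (hfin : S.Finite)
    (hU : IsUrysohn S U) {s1 s2 : ℝ} (h1 : s1 ∈ S) (h2 : s2 ∈ S) (h12 : s1 ≠ s2)
    (Γ : Subgroup (U ≃ᵢ U)) [Finite Γ] (Y : Type) [Finite Y] :
    ∃ (δ : Γ → ℝ) (p : Y → U), (∀ γ, γ ≠ 1 → 0 < δ γ) ∧
      (∀ y (γ : Γ), dist (p y) ((γ : U ≃ᵢ U) (p y)) = δ γ) ∧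
      ∀ y z, y ≠ z → ∀ γ : Γ, dist (p y) ((γ : U ≃ᵢ U) (p z)) =
        if γ = 1 then s1 else δ γ := by
  classical
  have := Fintype.ofFinite Γ
  have := Fintype.ofFinite Y
  obtain ⟨δ, A, f, hf, hδ, hgood⟩ := good_type hF hfin hU h1 h2 h12 Γ
  have hpos : ∀ γ, γ ≠ 1 → 0 < δ γ := fun γ hγ => lt_of_lt_of_le hF.pos (hF.low _ (hδ γ hγ))
  have hs1 : 0 < s1 := lt_of_lt_of_le hF.pos (hF.low _ h1)
  obtain ⟨u0, -, hu0⟩ := one_point hF hU ∅ (fun _ => s1) (by simp)
  have main : ∀ I : Finset Y, ∃ p : Y → U,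
      (∀ y ∈ I, ∀ γ : Γ, (γ : U ≃ᵢ U) (p y) ∉ A) ∧
      (∀ y ∈ I, ∀ γ : Γ, dist (p y) ((γ : U ≃ᵢ U) (p y)) = δ γ) ∧
      (∀ y ∈ I, ∀ z ∈ I, y ≠ z → ∀ γ : Γ, dist (p y) ((γ : U ≃ᵢ U) (p z)) =
        if γ = 1 then s1 else δ γ) := by
    intro I
    induction I using Finset.induction_on with
    | empty => exact ⟨fun _ => u0, by simp, by simp, by simp⟩
    | insert y0 I hy0 ih =>
      obtain ⟨p, hp1, hp2, hp3⟩ := ih
      have huniq : ∀ y ∈ I, ∀ z ∈ I, ∀ γ γ' : Γ,
          (γ : U ≃ᵢ U) (p y) = (γ' : U ≃ᵢ U) (p z) → γ = γ' := by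
        intro y hy z hz γ γ' h
        by_contra hne
        have hne' : γ⁻¹ * γ' ≠ 1 := by
          intro h'
          apply hne
          exact inv_mul_eq_one.1 h'
        have h3 : ((γ⁻¹ * γ' : Γ) : U ≃ᵢ U) (p z) = p y := by
          rw [Subgroup.coe_mul, IsometryEquiv.mul_apply, ← h, ← IsometryEquiv.mul_apply,
            ← Subgroup.coe_mul]
          simp
        have h4 : dist (p y) (((γ⁻¹ * γ' : Γ) : U ≃ᵢ U) (p z)) = δ (γ⁻¹ * γ') := by
          by_cases hyz : y = z
          · subst hyz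
            exact hp2 y hy _
          · rw [hp3 y hy z hz hyz, if_neg hne']
        rw [h3, dist_self] at h4
        exact absurd h4 (ne_of_lt (hpos _ hne'))
      let OA : Finset U := (Finset.univ ×ˢ A).image (fun q : Γ × U => (q.1 : U ≃ᵢ U) q.2)
      let OI : Finset U := (Finset.univ ×ˢ I).image (fun q : Γ × Y => (q.1 : U ≃ᵢ U) (p q.2))
      let f' : U → ℝ := fun u => if u ∈ A then f u else
        if h : ∃ q : Γ × Y, q.2 ∈ I ∧ (q.1 : U ≃ᵢ U) (p q.2) = u then
          (if (Classical.choose h).1 = 1 then s1 else δ (Classical.choose h).1) else s1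
      have hf'1 : ∀ a ∈ A, f' a = f a := by
        intro a ha
        change (if a ∈ A then f a else _) = f a
        rw [if_pos ha]
      have hf'2 : ∀ y ∈ I, ∀ γ : Γ, f' ((γ : U ≃ᵢ U) (p y)) = if γ = 1 then s1 else δ γ := by
        intro y hy γ
        have hex : ∃ q : Γ × Y, q.2 ∈ I ∧ (q.1 : U ≃ᵢ U) (p q.2) = (γ : U ≃ᵢ U) (p y) :=
          ⟨(γ, y), hy, rfl⟩
        change (if (γ : U ≃ᵢ U) (p y) ∈ A then f _ else
          if h : ∃ q : Γ × Y, q.2 ∈ I ∧ (q.1 : U ≃ᵢ U) (p q.2) = (γ : U ≃ᵢ U) (p y) then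
          (if (Classical.choose h).1 = 1 then s1 else δ (Classical.choose h).1) else s1) = _
        rw [if_neg (hp1 y hy γ), dif_pos hex]
        have h5 := Classical.choose_spec hex
        rw [huniq _ h5.1 y hy _ _ h5.2]
      have hf'3 : ∀ a, f' a ∈ S := by
        intro a
        change (if a ∈ A then f a else
          if h : ∃ q : Γ × Y, q.2 ∈ I ∧ (q.1 : U ≃ᵢ U) (p q.2) = a then
          (if (Classical.choose h).1 = 1 then s1 else δ (Classical.choose h).1) else s1) ∈ S
        split_ifs with c1 c2 c3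
        · exact hf a c1
        · exact h1
        · exact hδ _ c3
        · exact h1
      obtain ⟨q, hq1, hq2, hq3⟩ := hgood (A ∪ OA ∪ OI) f'
        (fun a ha => Finset.mem_union_left _ (Finset.mem_union_left _ ha))
        (fun a _ => hf'3 a) hf'1
      have hq4 : ∀ y ∈ I, ∀ γ : Γ, dist q ((γ : U ≃ᵢ U) (p y)) = if γ = 1 then s1 else δ γ := by
        intro y hy γ
        rw [hq2, hf'2 y hy γ]
        apply Finset.mem_union_right
        exact Finset.mem_image.2 ⟨(γ, y), by simp [hy], rfl⟩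
      have hinv : ∀ γ : Γ, δ γ⁻¹ = δ γ := by
        intro γ
        rw [← hq3, ← hq3]
        have h6 : dist ((γ : U ≃ᵢ U) q) ((γ : U ≃ᵢ U) (((γ⁻¹ : Γ) : U ≃ᵢ U) q))
            = dist q (((γ⁻¹ : Γ) : U ≃ᵢ U) q) := IsometryEquiv.dist_eq _ _ _
        rw [← h6, ← IsometryEquiv.mul_apply, ← Subgroup.coe_mul]
        simp [dist_comm]
      refine ⟨fun y => if y = y0 then q else p y, ?_, ?_, ?_⟩
      · intro y hy γ
        dsimp only
        split_ifs with c
        · intro hmem
          apply hq1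
          apply Finset.mem_union_left
          apply Finset.mem_union_right
          refine Finset.mem_image.2 ⟨(γ⁻¹, (γ : U ≃ᵢ U) q), by simp [hmem], ?_⟩
          dsimp only
          rw [← IsometryEquiv.mul_apply, ← Subgroup.coe_mul]
          simp
        · rcases Finset.mem_insert.1 hy with h | h
          · exact absurd h c
          · exact hp1 y h γ
      · intro y hy γ
        dsimp only
        split_ifs with c
        · exact hq3 γ
        · rcases Finset.mem_insert.1 hy with h | h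
          · exact absurd h c
          · exact hp2 y h γ
      · intro y hy z hz hyz γ
        dsimp only
        by_cases c1 : y = y0
        · by_cases c2 : z = y0
          · exact absurd (c1.trans c2.symm) hyz
          · rw [if_pos c1, if_neg c2]
            rcases Finset.mem_insert.1 hz with h | h
            · exact absurd h c2
            · exact hq4 z h γ
        · by_cases c2 : z = y0
          · rw [if_neg c1, if_pos c2]
            rcases Finset.mem_insert.1 hy with h | h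
            · exact absurd h c1
            · have h7 : dist (((γ⁻¹ : Γ) : U ≃ᵢ U) (p y))
                  (((γ⁻¹ : Γ) : U ≃ᵢ U) ((γ : U ≃ᵢ U) q)) = dist (p y) ((γ : U ≃ᵢ U) q) :=
                IsometryEquiv.dist_eq _ _ _
              have h8 : ((γ⁻¹ : Γ) : U ≃ᵢ U) ((γ : U ≃ᵢ U) q) = q := by
                rw [← IsometryEquiv.mul_apply, ← Subgroup.coe_mul]
                simp
              rw [← h7, h8, dist_comm, hq4 y h, hinv]
              simp
          · rw [if_neg c1, if_neg c2]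
            rcases Finset.mem_insert.1 hy with h | h
            · exact absurd h c1
            · rcases Finset.mem_insert.1 hz with h' | h'
              · exact absurd h' c2
              · exact hp3 y h z h' hyz γ
  obtain ⟨p, -, hp2, hp3⟩ := main Finset.univ
  exact ⟨δ, p, hpos, fun y γ => hp2 y (Finset.mem_univ _) γ,
    fun y z hyz γ => hp3 y (Finset.mem_univ _) z (Finset.mem_univ _) hyz γ⟩

end Pool.Agent.H94.UD
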