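import Pool.Agent.H94.UD.AddIso
import Pool.Agent.H94.UD.AddElem

/-!
# Countable locally finite groups with the extension property embed densely
-/

namespace Pool.Agent.H94.UD

theorem embeds_of_star {T : Set ℝ} {m : ℝ} (hF : IsFree T m) (hfinT : T.Finite) {t0 : ℝ}
    (ht0 : t0 ∈ T) {G : Type} [Group G] [Countable G] (hG : IsLocallyFiniteGroup G)
    (hstar : Star G) {V : Type} [MetricSpace V] (hV : IsUrysohn T V) : EmbedsDensely G V := by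
  classical
  have hcount := hV.countable
  obtain ⟨v0, -, -⟩ := one_point hF hV ∅ (fun _ => t0) (by simp)
  -- the requirements
  let D1 : G → Set (Stage G V) := fun g =>
    {t | g ∈ t.Γ ∧ (g ≠ 1 → ∃ w ∈ t.Y, t.a g w ≠ w)}
  let D2 : V → Set (Stage G V) := fun v => {t | v ∈ t.Y}
  let D3 : Finset (V × V) → Set (Stage G V) := fun F =>
    {t | (∀ p ∈ F, ∀ q ∈ F, dist p.1 q.1 = dist p.2 q.2) →
      ∃ g ∈ t.Γ, ∀ p ∈ F, p.1 ∈ t.Y ∧ t.a g p.1 = p.2}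
  have hD1 : ∀ g, IsCofinal (D1 g) := by
    intro g s
    obtain ⟨t, ht1, ht2⟩ := add_point hF ht0 hV s v0
    obtain ⟨u, hu1, hu2, hu3⟩ := add_elem hF ht0 hG hV t g ⟨v0, ht2⟩
    exact ⟨u, ⟨hu2, hu3⟩, ht1.trans hu1⟩
  have hD2 : ∀ v, IsCofinal (D2 v) := by
    intro v s
    obtain ⟨t, ht1, ht2⟩ := add_point hF ht0 hV s v
    exact ⟨t, ht2, ht1⟩
  have hD3 : ∀ F, IsCofinal (D3 F) := by
    intro F s
    by_cases hgood : ∀ p ∈ F, ∀ q ∈ F, dist p.1 q.1 = dist p.2 q.2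
    swap
    · exact ⟨s, fun h => absurd h hgood, le_rfl⟩
    obtain ⟨t, ht1, ht2⟩ := add_points hF ht0 hV s (F.image Prod.fst ∪ F.image Prod.snd)
    let φ : V → V := fun u => if h : ∃ p ∈ F, p.1 = u then (Classical.choose h).2 else u
    have hφ : ∀ p ∈ F, φ p.1 = p.2 := by
      intro p hp
      have h : ∃ p' ∈ F, p'.1 = p.1 := ⟨p, hp, rfl⟩
      simp only [φ]
      rw [dif_pos h]
      have h1 := Classical.choose_spec h
      have h2 := hgood _ h1.1 p hp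
      rw [h1.2, dist_self] at h2
      exact dist_eq_zero.1 h2.symm
    obtain ⟨u, hu1, g, hg1, hg2⟩ := add_iso hF hfinT ht0 hstar hV t (F.image Prod.fst) φ
      (fun a ha => ht2 (Finset.mem_union_left _ ha)) (by
        intro a ha
        obtain ⟨p, hp, rfl⟩ := Finset.mem_image.1 ha
        rw [hφ p hp]
        exact ht2 (Finset.mem_union_right _ (Finset.mem_image_of_mem _ hp))) (by
        intro a ha a' ha'
        obtain ⟨p, hp, rfl⟩ := Finset.mem_image.1 ha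
        obtain ⟨q, hq, rfl⟩ := Finset.mem_image.1 ha'
        rw [hφ p hp, hφ q hq]
        exact (hgood p hp q hq).symm)
    refine ⟨u, fun _ => ⟨g, hg1, ?_⟩, ht1.trans hu1⟩
    intro p hp
    refine ⟨hu1.2.1 (ht2 (Finset.mem_union_left _ (Finset.mem_image_of_mem _ hp))), ?_⟩
    rw [hg2 _ (Finset.mem_image_of_mem _ hp), hφ p hp]
  let ix := (G ⊕ V) ⊕ Finset (V × V)
  let 𝒟 : ix → Order.Cofinal (Stage G V) := fun i =>
    match i with
    | Sum.inl (Sum.inl g) => ⟨D1 g, hD1 g⟩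
    | Sum.inl (Sum.inr v) => ⟨D2 v, hD2 v⟩
    | Sum.inr F => ⟨D3 F, hD3 F⟩
  obtain ⟨enc⟩ : Nonempty (Encodable ix) := nonempty_encodable ix
  let s0 : Stage G V :=
    { Γ := ⊥
      fin := inferInstance
      Y := ∅
      a := fun _ v => v
      maps := by simp
      one := by simp
      mul := by simp
      iso := by simp }
  let I := Order.idealOfCofinals s0 𝒟
  have hdir : ∀ s ∈ I, ∀ t ∈ I, ∃ u ∈ I, s ≤ u ∧ t ≤ u := by
    intro s hs t ht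
    exact I.directed s hs t ht
  have hI1 : ∀ g, ∃ s ∈ I, g ∈ s.Γ ∧ (g ≠ 1 → ∃ w ∈ s.Y, s.a g w ≠ w) := by
    intro g
    obtain ⟨s, hs1, hs2⟩ := Order.cofinal_meets_idealOfCofinals s0 𝒟 (Sum.inl (Sum.inl g))
    exact ⟨s, hs2, hs1⟩
  have hI2 : ∀ v : V, ∃ s ∈ I, v ∈ s.Y := by
    intro v
    obtain ⟨s, hs1, hs2⟩ := Order.cofinal_meets_idealOfCofinals s0 𝒟 (Sum.inl (Sum.inr v))
    exact ⟨s, hs2, hs1⟩
  have hI3 : ∀ F : Finset (V × V), (∀ p ∈ F, ∀ q ∈ F, dist p.1 q.1 = dist p.2 q.2) →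
      ∃ s ∈ I, ∃ g ∈ s.Γ, ∀ p ∈ F, p.1 ∈ s.Y ∧ s.a g p.1 = p.2 := by
    intro F hgood
    obtain ⟨s, hs1, hs2⟩ := Order.cofinal_meets_idealOfCofinals s0 𝒟 (Sum.inr F)
    exact ⟨s, hs2, hs1 hgood⟩
  have hex : ∀ (g : G) (v : V), ∃ s ∈ I, g ∈ s.Γ ∧ v ∈ s.Y := by
    intro g v
    obtain ⟨s, hs1, hs2, -⟩ := hI1 g
    obtain ⟨t, ht1, ht2⟩ := hI2 v
    obtain ⟨u, hu1, hu2, hu3⟩ := hdir s hs1 t ht1
    exact ⟨u, hu1, hu2.1 hs2, hu3.2.1 ht2⟩
  have hex2 : ∀ (g g' : G) (v v' : V), ∃ s ∈ I, g ∈ s.Γ ∧ g' ∈ s.Γ ∧ v ∈ s.Y ∧ v' ∈ s.Y := by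
    intro g g' v v'
    obtain ⟨s, hs1, hs2, hs3⟩ := hex g v
    obtain ⟨t, ht1, ht2, ht3⟩ := hex g' v'
    obtain ⟨u, hu1, hu2, hu3⟩ := hdir s hs1 t ht1
    exact ⟨u, hu1, hu2.1 hs2, hu3.1 ht2, hu2.2.1 hs3, hu3.2.1 ht3⟩
  choose st hst1 hst2 hst3 using hex
  let L : G → V → V := fun g v => (st g v).a g v
  have hL : ∀ s ∈ I, ∀ g ∈ s.Γ, ∀ v ∈ s.Y, L g v = s.a g v := by
    intro s hs g hg v hv
    obtain ⟨u, -, hu2, hu3⟩ := hdir s hs (st g v) (hst1 g v)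
    change (st g v).a g v = s.a g v
    rw [← hu2.2.2 g hg v hv, ← hu3.2.2 g (hst2 g v) v (hst3 g v)]
  have hL1 : ∀ v, L 1 v = v := by
    intro v
    obtain ⟨s, hs1, hs2, -, hs3, -⟩ := hex2 1 1 v v
    rw [hL s hs1 1 hs2 v hs3, s.one v hs3]
  have hLm : ∀ g g' v, L (g * g') v = L g (L g' v) := by
    intro g g' v
    obtain ⟨s, hs1, hs2, hs3, hs4, -⟩ := hex2 g g' v v
    rw [hL s hs1 g' hs3 v hs4, hL s hs1 g hs2 _ (s.maps g' hs3 v hs4),
      hL s hs1 (g * g') (mul_mem hs2 hs3) v hs4, s.mul g hs2 g' hs3 v hs4]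
  have hLd : ∀ g v v', dist (L g v) (L g v') = dist v v' := by
    intro g v v'
    obtain ⟨s, hs1, hs2, -, hs4, hs5⟩ := hex2 g g v v'
    rw [hL s hs1 g hs2 v hs4, hL s hs1 g hs2 v' hs5, s.iso g hs2 v hs4 v' hs5]
  let f : G →* (V ≃ᵢ V) :=
    { toFun := fun g => ⟨mkHom L hL1 hLm g, Isometry.of_dist_eq (hLd g)⟩
      map_one' := by
        apply IsometryEquiv.ext
        intro v
        exact hL1 v
      map_mul' := by
        intro g g'
        apply IsometryEquiv.ext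
        intro v
        exact hLm g g' v }
  have hf : ∀ g v, f g v = L g v := fun _ _ => rfl
  refine ⟨f, ?_, ?_⟩
  · rw [injective_iff_map_eq_one]
    intro g hg
    by_contra hne
    obtain ⟨s, hs1, hs2, hs3⟩ := hI1 g
    obtain ⟨w, hw1, hw2⟩ := hs3 hne
    apply hw2
    rw [← hL s hs1 g hs2 w hw1, ← hf, hg]
    rfl
  · rw [dense_iff]
    intro h E
    obtain ⟨s, hs1, g, hs2, hs3⟩ := hI3 (E.image (fun v => (v, h v))) (by
      intro p hp q hq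
      obtain ⟨v, -, rfl⟩ := Finset.mem_image.1 hp
      obtain ⟨w, -, rfl⟩ := Finset.mem_image.1 hq
      exact (h.dist_eq v w).symm)
    refine ⟨f g, ⟨g, rfl⟩, ?_⟩
    intro v hv
    have h1 := hs3 (v, h v) (Finset.mem_image_of_mem _ hv)
    rw [hf, hL s hs1 g hs2 v h1.1]
    exact h1.2

end Pool.Agent.H94.UD
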