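import Pool.Agent.H94.UD.Star

/-!
# Finite stages of an action on a Urysohn space
-/

namespace Pool.Agent.H94.UD

/-- A finite stage: a finite subgroup acting by isometries on a finite set of points. -/
structure Stage (G : Type) [Group G] (V : Type) [MetricSpace V] where
  /-- the finite subgroup -/
  Γ : Subgroup G
  fin : Finite Γ
  /-- the finite set of points -/
  Y : Finset V
  /-- the action -/
  a : G → V → V
  maps : ∀ γ ∈ Γ, ∀ y ∈ Y, a γ y ∈ Y
  one : ∀ y ∈ Y, a 1 y = y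
  mul : ∀ γ ∈ Γ, ∀ γ' ∈ Γ, ∀ y ∈ Y, a (γ * γ') y = a γ (a γ' y)
  iso : ∀ γ ∈ Γ, ∀ y ∈ Y, ∀ z ∈ Y, dist (a γ y) (a γ z) = dist y z

instance (G : Type) [Group G] (V : Type) [MetricSpace V] : Preorder (Stage G V) where
  le s t := s.Γ ≤ t.Γ ∧ s.Y ⊆ t.Y ∧ ∀ γ ∈ s.Γ, ∀ y ∈ s.Y, t.a γ y = s.a γ y
  le_refl s := ⟨le_rfl, subset_rfl, fun _ _ _ _ => rfl⟩
  le_trans s t u h1 h2 := ⟨h1.1.trans h2.1, h1.2.1.trans h2.2.1, fun γ hγ y hy =>
    (h2.2.2 γ (h1.1 hγ) y (h1.2.1 hy)).trans (h1.2.2 γ hγ y hy)⟩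

theorem stage_le {G : Type} [Group G] {V : Type} [MetricSpace V] {s t : Stage G V} :
    s ≤ t ↔ s.Γ ≤ t.Γ ∧ s.Y ⊆ t.Y ∧ ∀ γ ∈ s.Γ, ∀ y ∈ s.Y, t.a γ y = s.a γ y := Iff.rfl

/-- A homomorphism to a permutation group from an action given by a function. -/
def mkHom {Γ X : Type} [Group Γ] (F : Γ → X → X) (h1 : ∀ x, F 1 x = x)
    (hm : ∀ γ γ' x, F (γ * γ') x = F γ (F γ' x)) : Γ →* Equiv.Perm X where
  toFun γ :=
    { toFun := F γ
      invFun := F γ⁻¹
      left_inv := fun x => by rw [← hm, inv_mul_cancel, h1]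
      right_inv := fun x => by rw [← hm, mul_inv_cancel, h1] }
  map_one' := by
    apply Equiv.Perm.ext
    intro x
    exact h1 x
  map_mul' := by
    intro γ γ'
    apply Equiv.Perm.ext
    intro x
    exact hm γ γ' x

theorem mkHom_apply {Γ X : Type} [Group Γ] (F : Γ → X → X) (h1 : ∀ x, F 1 x = x)
    (hm : ∀ γ γ' x, F (γ * γ') x = F γ (F γ' x)) (γ : Γ) (x : X) :
    mkHom F h1 hm γ x = F γ x := rfl

/-- Extending a stage by an abstract finite metric space with an action. -/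
theorem stage_extend {T : Set ℝ} {G : Type} [Group G] {V : Type} [MetricSpace V]
    (hV : IsUrysohn T V) (s : Stage G V) (Γ' : Subgroup G) (hfin : Finite Γ') (hle : s.Γ ≤ Γ')
    (Yp : Finset V) (hY : s.Y ⊆ Yp) (X : Type) [MetricSpace X] (hX : Finite X)
    (hD : IsDeltaMetric T X) (b : Γ' →* Equiv.Perm X)
    (hb : ∀ γ x y, dist (b γ x) (b γ y) = dist x y) (j : V → X)
    (hj : ∀ y ∈ Yp, ∀ z ∈ Yp, dist (j y) (j z) = dist y z)
    (heq : ∀ γ (hγ : γ ∈ s.Γ), ∀ y ∈ s.Y, b ⟨γ, hle hγ⟩ (j y) = j (s.a γ y)) :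
    ∃ t : Stage G V, s ≤ t ∧ t.Γ = Γ' ∧ Yp ⊆ t.Y ∧ ∃ e : X → V, Isometry e ∧
      (∀ x, e x ∈ t.Y) ∧ (∀ y ∈ Yp, e (j y) = y) ∧
      ∀ γ (hγ : γ ∈ Γ') x, t.a γ (e x) = e (b ⟨γ, hγ⟩ x) := by
  classical
  have := Fintype.ofFinite X
  obtain ⟨e, he1, he2⟩ := extend_over hV Yp X hX hD j hj
  let a : G → V → V := fun γ v =>
    if h : γ ∈ Γ' ∧ ∃ x, e x = v then e (b ⟨γ, h.1⟩ (Classical.choose h.2)) else v
  have ha : ∀ γ (hγ : γ ∈ Γ') x, a γ (e x) = e (b ⟨γ, hγ⟩ x) := by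
    intro γ hγ x
    have h : γ ∈ Γ' ∧ ∃ x', e x' = e x := ⟨hγ, x, rfl⟩
    change (if h : γ ∈ Γ' ∧ ∃ x', e x' = e x then e (b ⟨γ, h.1⟩ (Classical.choose h.2))
      else e x) = _
    rw [dif_pos h, he1.injective (Classical.choose_spec h.2)]
  have hmemY : ∀ x, e x ∈ Finset.univ.image e := fun x =>
    Finset.mem_image_of_mem _ (Finset.mem_univ _)
  have hsub : Yp ⊆ Finset.univ.image e := by
    intro y hy
    rw [← he2 y hy]
    exact hmemY _
  refine ⟨⟨Γ', hfin, Finset.univ.image e, a, ?_, ?_, ?_, ?_⟩, ?_, rfl, hsub, e, he1, hmemY,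
    he2, ha⟩
  · intro γ hγ y hy
    obtain ⟨x, -, rfl⟩ := Finset.mem_image.1 hy
    rw [ha γ hγ]
    exact hmemY _
  · intro y hy
    obtain ⟨x, -, rfl⟩ := Finset.mem_image.1 hy
    rw [ha 1 (one_mem _)]
    have : (⟨1, one_mem _⟩ : Γ') = 1 := rfl
    rw [this, map_one]
    rfl
  · intro γ hγ γ' hγ' y hy
    obtain ⟨x, -, rfl⟩ := Finset.mem_image.1 hy
    rw [ha γ' hγ', ha γ hγ, ha (γ * γ') (mul_mem hγ hγ')]
    have : (⟨γ * γ', mul_mem hγ hγ'⟩ : Γ') = ⟨γ, hγ⟩ * ⟨γ', hγ'⟩ := rfl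
    rw [this, map_mul]
    rfl
  · intro γ hγ y hy z hz
    obtain ⟨x, -, rfl⟩ := Finset.mem_image.1 hy
    obtain ⟨x', -, rfl⟩ := Finset.mem_image.1 hz
    rw [ha γ hγ, ha γ hγ, he1.dist_eq, he1.dist_eq, hb]
  · rw [stage_le]
    refine ⟨hle, hY.trans hsub, ?_⟩
    intro γ hγ y hy
    change a γ y = s.a γ y
    have h1 := ha γ (hle hγ) (j y)
    rw [heq γ hγ y hy, he2 y (hY hy), he2 _ (hY (s.maps γ hγ y hy))] at h1
    exact h1

/-- Adding a point to a stage. -/
theorem add_point {T : Set ℝ} {m : ℝ} (hF : IsFree T m) {t0 : ℝ} (ht0 : t0 ∈ T) {G : Type}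
    [Group G] {V : Type} [MetricSpace V]
    (hV : IsUrysohn T V) (s : Stage G V) (v : V) : ∃ t : Stage G V, s ≤ t ∧ v ∈ t.Y := by
  classical
  by_cases hv : v ∈ s.Y
  · exact ⟨s, le_rfl, hv⟩
  have := s.fin
  let X := ↥s.Y ⊕ ↥s.Γ
  let c : X → X → ℝ := fun x y =>
    match x, y with
    | Sum.inl y, Sum.inl z => dist (y : V) z
    | Sum.inl y, Sum.inr γ => dist v (s.a (γ⁻¹ : s.Γ) y)
    | Sum.inr γ, Sum.inl y => dist v (s.a (γ⁻¹ : s.Γ) y)
    | Sum.inr γ, Sum.inr γ' => if γ = γ' then 0 else t0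
  have h0 : ∀ x, c x x = 0 := by
    rintro (y | γ)
    · exact dist_self _
    · exact if_pos rfl
  have hs : ∀ x y, c x y = c y x := by
    rintro (y | γ) (z | γ')
    · exact dist_comm _ _
    · rfl
    · rfl
    · change (if γ = γ' then 0 else t0) = (if γ' = γ then 0 else t0)
      simp only [eq_comm]
  have hvd : ∀ (γ : s.Γ) (y : s.Y), dist v (s.a γ y) ∈ T := by
    intro γ y
    apply hV.delta
    intro h
    apply hv
    rw [h]
    exact s.maps _ γ.2 _ y.2
  have hmem : ∀ x y, x ≠ y → c x y ∈ T := by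
    rintro (y | γ) (z | γ') hne
    · apply hV.delta
      intro h
      apply hne
      rw [Subtype.ext h]
    · exact hvd _ _
    · exact hvd _ _
    · change (if γ = γ' then 0 else t0) ∈ T
      rw [if_neg]
      · exact ht0
      · intro h
        apply hne
        rw [h]
  let _ : MetricSpace X := mkMetric c m hF.pos h0 hs
    (fun x y hxy => ⟨hF.low _ (hmem x y hxy), hF.high _ (hmem x y hxy)⟩)
  have hdist : ∀ x y : X, dist x y = c x y := fun _ _ => rfl
  let F : s.Γ → X → X := fun γ x =>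
    match x with
    | Sum.inl y => Sum.inl ⟨s.a γ y, s.maps γ γ.2 y y.2⟩
    | Sum.inr γ' => Sum.inr (γ * γ')
  have hF1 : ∀ x, F 1 x = x := by
    rintro (y | γ)
    · change Sum.inl _ = Sum.inl _
      congr 1
      exact Subtype.ext (s.one y y.2)
    · change Sum.inr _ = Sum.inr _
      rw [one_mul]
  have hFm : ∀ γ γ' x, F (γ * γ') x = F γ (F γ' x) := by
    rintro γ γ' (y | γ'')
    · change Sum.inl _ = Sum.inl _
      congr 1
      exact Subtype.ext (s.mul γ γ.2 γ' γ'.2 y y.2)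
    · change Sum.inr _ = Sum.inr _
      rw [mul_assoc]
  have hinv : ∀ (γ γ' : s.Γ) (y : V), y ∈ s.Y →
      s.a (((γ * γ')⁻¹ : s.Γ) : G) (s.a γ y) = s.a ((γ'⁻¹ : s.Γ) : G) y := by
    intro γ γ' y hy
    rw [← s.mul _ (γ * γ')⁻¹.2 _ γ.2 y hy]
    congr 1
    simp
  have hb : ∀ γ x y, dist (mkHom F hF1 hFm γ x) (mkHom F hF1 hFm γ y) = dist x y := by
    rintro γ (y | γ') (z | γ'')
    · exact s.iso γ γ.2 y y.2 z z.2
    · change dist v (s.a (((γ * γ'')⁻¹ : s.Γ) : G) (s.a γ y)) = dist v (s.a _ y)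
      rw [hinv _ _ _ y.2]
    · change dist v (s.a (((γ * γ')⁻¹ : s.Γ) : G) (s.a γ z)) = dist v (s.a _ z)
      rw [hinv _ _ _ z.2]
    · change (if γ * γ' = γ * γ'' then 0 else t0) = (if γ' = γ'' then 0 else t0)
      simp only [mul_right_inj]
  obtain ⟨t, ht1, -, ht3, -⟩ := stage_extend hV s s.Γ s.fin le_rfl (insert v s.Y)
    (Finset.subset_insert _ _) X inferInstance
    (fun x y hxy => by rw [hdist]; exact hmem x y hxy) (mkHom F hF1 hFm) hb
    (fun w => if h : w ∈ s.Y then Sum.inl ⟨w, h⟩ else Sum.inr 1) (by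
      intro y hy z hz
      by_cases hy' : y ∈ s.Y
      · by_cases hz' : z ∈ s.Y
        · rw [dif_pos hy', dif_pos hz']
          rfl
        · rw [dif_pos hy', dif_neg hz']
          have hzv : z = v := by
            rcases Finset.mem_insert.1 hz with h | h
            · exact h
            · exact absurd h hz'
          change dist v (s.a ((1⁻¹ : s.Γ) : G) y) = dist y z
          rw [hzv, inv_one, dist_comm]
          congr 1
          exact s.one y hy'
      · have hyv : y = v := by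
          rcases Finset.mem_insert.1 hy with h | h
          · exact h
          · exact absurd h hy'
        by_cases hz' : z ∈ s.Y
        · rw [dif_neg hy', dif_pos hz']
          change dist v (s.a ((1⁻¹ : s.Γ) : G) z) = dist y z
          rw [hyv, inv_one]
          congr 1
          exact s.one z hz'
        · have hzv : z = v := by
            rcases Finset.mem_insert.1 hz with h | h
            · exact h
            · exact absurd h hz'
          rw [dif_neg hy', dif_neg hz', hyv, hzv, dist_self, dist_self]) (by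
      intro γ hγ y hy
      rw [dif_pos hy, dif_pos (s.maps γ hγ y hy)]
      rfl)
  exact ⟨t, ht1, ht3 (Finset.mem_insert_self _ _)⟩

/-- Adding finitely many points to a stage. -/
theorem add_points {T : Set ℝ} {m : ℝ} (hF : IsFree T m) {t0 : ℝ} (ht0 : t0 ∈ T) {G : Type}
    [Group G] {V : Type} [MetricSpace V]
    (hV : IsUrysohn T V) (s : Stage G V) (E : Finset V) : ∃ t : Stage G V, s ≤ t ∧ E ⊆ t.Y := by
  classical
  induction E using Finset.induction_on with
  | empty => exact ⟨s, le_rfl, Finset.empty_subset _⟩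
  | insert v E _ ih =>
    obtain ⟨t, ht1, ht2⟩ := ih
    obtain ⟨u, hu1, hu2⟩ := add_point hF ht0 hV t v
    refine ⟨u, ht1.trans hu1, ?_⟩
    intro w hw
    rcases Finset.mem_insert.1 hw with h | h
    · rw [h]
      exact hu2
    · exact hu1.2.1 (ht2 h)

end Pool.Agent.H94.UD
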