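import Pool.Agent.H94.UD.Key

/-!
# Dense locally finite subgroups have the extension property for actions on finite sets
-/

namespace Pool.Agent.H94.UD

/-- Every action of a finite subgroup on a finite set extends to a larger finite subgroup some
element of which acts as a prescribed permutation. -/
def Star (G : Type) [Group G] : Prop :=
  ∀ (Γ : Subgroup G), Finite Γ → ∀ (X : Type), Finite X →
    ∀ (b : Γ →* Equiv.Perm X) (h : Equiv.Perm X),
    ∃ Γ' : Subgroup G, Finite Γ' ∧ ∃ (hle : Γ ≤ Γ') (b' : Γ' →* Equiv.Perm X),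
      (∀ γ : Γ, b' ⟨γ, hle γ.2⟩ = b γ) ∧ (∃ g, b' g = h) ∧
      ∀ K : Subgroup (Equiv.Perm X), (∀ γ, b γ ∈ K) → h ∈ K → ∀ x, b' x ∈ K

open Classical in
/-- Points with prescribed mutual distances, for a finite group acting faithfully. -/
theorem good_points' {S : Set ℝ} {m : ℝ} {U : Type} [MetricSpace U] (hF : IsFree S m)
    (hfin : S.Finite)
    (hU : IsUrysohn S U) {s1 s2 : ℝ} (h1 : s1 ∈ S) (h2 : s2 ∈ S) (h12 : s1 ≠ s2)
    (Γ : Type) [Group Γ] [Finite Γ] (ι : Γ →* (U ≃ᵢ U)) (hι : Function.Injective ι)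
    (Y : Type) [Finite Y] :
    ∃ (δ : Γ → ℝ) (p : Y → U), (∀ γ, γ ≠ 1 → 0 < δ γ) ∧
      (∀ y (γ : Γ), dist (p y) (ι γ (p y)) = δ γ) ∧
      ∀ y z, y ≠ z → ∀ γ : Γ, dist (p y) (ι γ (p z)) = if γ = 1 then s1 else δ γ := by
  let E := MonoidHom.ofInjective hι
  have : Finite ι.range := Finite.of_equiv Γ E.toEquiv
  obtain ⟨δ, p, hp1, hp2, hp3⟩ := good_points hF hfin hU h1 h2 h12 ι.range Y
  refine ⟨fun γ => δ (E γ), p, ?_, ?_, ?_⟩
  · intro γ hγ
    apply hp1
    intro h
    apply hγ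
    apply E.injective
    rw [h, map_one]
  · intro y γ
    exact hp2 y (E γ)
  · intro y z hyz γ
    have h3 := hp3 y z hyz (E γ)
    have h4 : ((E γ : ι.range) : U ≃ᵢ U) = ι γ := rfl
    rw [h4] at h3
    rw [h3]
    have h5 : E γ = 1 ↔ γ = 1 := by
      constructor
      · intro h
        apply E.injective
        rw [h, map_one]
      · intro h
        rw [h, map_one]
    simp only [h5]

theorem perm_apply_inv {X : Type} (f : Equiv.Perm X) (x : X) : f (f⁻¹ x) = x :=
  f.apply_symm_apply x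

theorem perm_inv_apply {X : Type} (f : Equiv.Perm X) (x : X) : f⁻¹ (f x) = x :=
  f.symm_apply_apply x

theorem star_of_dense {S : Set ℝ} {m : ℝ} {U : Type} [MetricSpace U] (hF : IsFree S m)
    (hfin : S.Finite)
    (hU : IsUrysohn S U) {s1 s2 : ℝ} (h1 : s1 ∈ S) (h2 : s2 ∈ S) (h12 : s1 ≠ s2)
    (G : Subgroup (U ≃ᵢ U)) (hG : IsLocallyFiniteGroup G)
    (hd : IsDenseIn U (G : Set (U ≃ᵢ U))) : Star G := by
  classical
  intro Γ hΓ X hX b h
  have := Fintype.ofFinite Γ
  have := Fintype.ofFinite X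
  have hs1 : 0 < s1 := lt_of_lt_of_le hF.pos (hF.low _ h1)
  let ι : Γ →* (U ≃ᵢ U) := G.subtype.comp Γ.subtype
  have hι : Function.Injective ι :=
    (Subgroup.subtype_injective G).comp (Subgroup.subtype_injective Γ)
  obtain ⟨δ, p, hp1, hp2, hp3⟩ := good_points' hF hfin hU h1 h2 h12 Γ ι hι X
  let e : Γ × X → U := fun q => ι q.1 (p q.2)
  have hιmul : ∀ (γ γ' : Γ) (u : U), ι γ (ι γ' u) = ι (γ * γ') u := by
    intro γ γ' u
    rw [map_mul, IsometryEquiv.mul_apply]
  have hι1 : ∀ u : U, ι 1 u = u := by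
    intro u
    rw [map_one]
    rfl
  -- the distances between the points
  have hdist : ∀ q r : Γ × X, dist (e q) (e r) =
      if q.1 = r.1 then (if q.2 = r.2 then 0 else s1) else δ (q.1⁻¹ * r.1) := by
    rintro ⟨γ, y⟩ ⟨γ', z⟩
    change dist (ι γ (p y)) (ι γ' (p z)) = _
    have h3 : dist (ι γ⁻¹ (ι γ (p y))) (ι γ⁻¹ (ι γ' (p z))) = dist (ι γ (p y)) (ι γ' (p z)) :=
      IsometryEquiv.dist_eq _ _ _
    rw [← h3, hιmul, hιmul, inv_mul_cancel, hι1]
    dsimp only
    by_cases hyz : y = z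
    · subst hyz
      rw [hp2]
      by_cases hγ : γ = γ'
      · subst hγ
        rw [if_pos rfl, if_pos rfl, inv_mul_cancel, ← hp2 y 1, hι1, dist_self]
      · rw [if_neg hγ]
    · rw [hp3 y z hyz]
      by_cases hγ : γ = γ'
      · subst hγ
        rw [if_pos rfl, if_neg hyz, inv_mul_cancel, if_pos rfl]
      · rw [if_neg hγ, if_neg]
        intro h'
        exact hγ (inv_mul_eq_one.1 h')
  have hinj : Function.Injective e := by
    intro q r hqr
    have h3 := hdist q r
    rw [hqr, dist_self] at h3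
    by_cases hγ : q.1 = r.1
    · rw [if_pos hγ] at h3
      by_cases hy : q.2 = r.2
      · exact Prod.ext hγ hy
      · rw [if_neg hy] at h3
        exact absurd h3 (ne_of_lt hs1)
    · rw [if_neg hγ] at h3
      have h4 : q.1⁻¹ * r.1 ≠ 1 := fun h' => hγ (inv_mul_eq_one.1 h')
      exact absurd h3 (ne_of_lt (hp1 _ h4))
  -- the isometry of the configuration
  let T : Γ × X → Γ × X := fun q => (q.1, (b q.1)⁻¹ (h (b q.1 q.2)))
  have hTinj : Function.Injective T := by
    rintro ⟨γ, y⟩ ⟨γ', z⟩ hqr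
    have h3 : γ = γ' := congrArg Prod.fst hqr
    subst h3
    have h4 : (b γ)⁻¹ (h (b γ y)) = (b γ)⁻¹ (h (b γ z)) := congrArg Prod.snd hqr
    rw [(b γ)⁻¹.injective.eq_iff, h.injective.eq_iff, (b γ).injective.eq_iff] at h4
    rw [h4]
  have hTiso : ∀ q r, dist (e (T q)) (e (T r)) = dist (e q) (e r) := by
    intro q r
    rw [hdist, hdist]
    change (if q.1 = r.1 then (if (T q).2 = (T r).2 then 0 else s1) else δ (q.1⁻¹ * r.1)) = _
    by_cases hγ : q.1 = r.1
    · rw [if_pos hγ, if_pos hγ]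
      have h3 : (T q).2 = (T r).2 ↔ q.2 = r.2 := by
        constructor
        · intro h'
          have : T q = T r := Prod.ext hγ h'
          rw [hTinj this]
        · intro h'
          rw [Prod.ext hγ h']
      simp only [h3]
    · rw [if_neg hγ, if_neg hγ]
  let A : Finset U := Finset.univ.image e
  have hA : ∀ u : A, ∃ q, e q = u := by
    intro u
    obtain ⟨q, -, hq⟩ := Finset.mem_image.1 u.2
    exact ⟨q, hq⟩
  choose c hc using hA
  have hce : ∀ q (hq : e q ∈ A), c ⟨e q, hq⟩ = q := fun q hq => hinj (hc ⟨e q, hq⟩)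
  have hφ : Isometry (fun u : A => e (T (c u))) := by
    apply Isometry.of_dist_eq
    intro u v
    rw [hTiso, hc, hc]
    rfl
  obtain ⟨g0, hg0⟩ := hU.homogeneous A _ hφ
  obtain ⟨g, hgG, hg⟩ := (dense_iff U _).1 hd g0 A
  have hgT : ∀ q, g (e q) = e (T q) := by
    intro q
    have hq : e q ∈ A := Finset.mem_image_of_mem _ (Finset.mem_univ _)
    rw [hg _ hq]
    have := hg0 ⟨e q, hq⟩
    rw [hce q hq] at this
    exact this
  -- the relation between points and blocks
  let Rl : U → X → Prop := fun u z => ∃ q : Γ × X, e q = u ∧ b q.1 q.2 = z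
  have hRl : ∀ u z z', Rl u z → Rl u z' → z = z' := by
    rintro u z z' ⟨q, hq1, hq2⟩ ⟨r, hr1, hr2⟩
    have : q = r := hinj (hq1.trans hr1.symm)
    rw [← hq2, ← hr2, this]
  let Sg : Subgroup (G × Equiv.Perm X) :=
    Subgroup.closure (Set.range (fun γ : Γ => ((γ : G), b γ)) ∪ {(⟨g, hgG⟩, h)})
  have hQ : ∀ s ∈ Sg, ∀ u z, Rl u z ↔ Rl ((s.1 : U ≃ᵢ U) u) (s.2 z) := by
    intro s hs
    induction hs using Subgroup.closure_induction with
    | mem s hs =>
      rcases hs with ⟨γ0, rfl⟩ | hs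
      · intro u z
        constructor
        · rintro ⟨⟨γ, y⟩, hq1, hq2⟩
          refine ⟨(γ0 * γ, y), ?_, ?_⟩
          · change ι (γ0 * γ) (p y) = ι γ0 u
            rw [← hq1, ← hιmul]
          · change b (γ0 * γ) y = b γ0 z
            rw [← hq2, map_mul, Equiv.Perm.mul_apply]
        · rintro ⟨⟨γ, y⟩, hq1, hq2⟩
          refine ⟨(γ0⁻¹ * γ, y), ?_, ?_⟩
          · change ι (γ0⁻¹ * γ) (p y) = u
            change ι γ (p y) = ι γ0 u at hq1
            rw [← hιmul, hq1, hιmul, inv_mul_cancel, hι1]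
          · change b (γ0⁻¹ * γ) y = z
            change b γ y = b γ0 z at hq2
            rw [map_mul, Equiv.Perm.mul_apply, hq2, ← Equiv.Perm.mul_apply, ← map_mul,
              inv_mul_cancel, map_one, Equiv.Perm.one_apply]
      · have hs' : s = (⟨g, hgG⟩, h) := hs
        subst hs'
        intro u z
        constructor
        · rintro ⟨⟨γ, y⟩, hq1, hq2⟩
          refine ⟨T (γ, y), ?_, ?_⟩
          · change e (T (γ, y)) = g u
            rw [← hq1, hgT]
          · change b γ ((b γ)⁻¹ (h (b γ y))) = h z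
            change b γ y = z at hq2
            rw [hq2, perm_apply_inv]
        · rintro ⟨⟨γ, y⟩, hq1, hq2⟩
          change e (γ, y) = g u at hq1
          change b γ y = h z at hq2
          refine ⟨(γ, (b γ)⁻¹ z), ?_, ?_⟩
          · have h3 : T (γ, (b γ)⁻¹ z) = (γ, y) := by
              change (γ, (b γ)⁻¹ (h (b γ ((b γ)⁻¹ z)))) = (γ, y)
              rw [perm_apply_inv, ← hq2, perm_inv_apply]
            apply g.injective
            rw [hgT, h3, hq1]
          · change b γ ((b γ)⁻¹ z) = z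
            rw [perm_apply_inv]
    | one => intro u z; exact Iff.rfl
    | mul s t _ _ hs ht =>
      intro u z
      rw [ht u z, hs]
      rfl
    | inv s _ hs =>
      intro u z
      have h3 : (s.1 : U ≃ᵢ U) (((s⁻¹).1 : U ≃ᵢ U) u) = u := by
        rw [← IsometryEquiv.mul_apply, ← Subgroup.coe_mul, ← Prod.fst_mul]
        simp
      have h4 : s.2 ((s⁻¹).2 z) = z := by
        rw [← Equiv.Perm.mul_apply, ← Prod.snd_mul]
        simp
      have h5 := hs (((s⁻¹).1 : U ≃ᵢ U) u) ((s⁻¹).2 z)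
      rw [h3, h4] at h5
      exact h5.symm
  let pr : Sg →* G := (MonoidHom.fst G (Equiv.Perm X)).comp Sg.subtype
  have hpr : Function.Injective pr := by
    rw [injective_iff_map_eq_one]
    rintro ⟨⟨x, π⟩, hs⟩ hx
    have hx' : x = 1 := hx
    subst hx'
    have h3 : π = 1 := by
      apply Equiv.Perm.ext
      intro z
      have h4 : Rl (p z) z := ⟨(1, z), hι1 _, by
        change b 1 z = z
        rw [map_one]; rfl⟩
      have h5 := (hQ _ hs (p z) z).1 h4
      exact hRl _ _ _ h5 h4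
    subst h3
    rfl
  let E := MonoidHom.ofInjective hpr
  have hrange : pr.range = Subgroup.closure
      (Set.range (fun γ : Γ => (γ : G)) ∪ {(⟨g, hgG⟩ : G)}) := by
    have h3 : pr.range = Sg.map (MonoidHom.fst G (Equiv.Perm X)) := by
      rw [MonoidHom.range_comp, Subgroup.range_subtype]
    rw [h3, MonoidHom.map_closure, Set.image_union, ← Set.range_comp, Set.image_singleton]
    rfl
  have hfinR : Finite pr.range := by
    rw [hrange]
    apply hG
    exact (Set.finite_range _).union (Set.finite_singleton _)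
  have hle : Γ ≤ pr.range := by
    rw [hrange]
    intro γ hγ
    apply Subgroup.subset_closure
    left
    exact ⟨⟨γ, hγ⟩, rfl⟩
  have hgen : ∀ (s : G × Equiv.Perm X) (hs : s ∈ Sg) (hx : s.1 ∈ pr.range),
      ((MonoidHom.snd G (Equiv.Perm X)).comp Sg.subtype) (E.symm ⟨s.1, hx⟩) = s.2 := by
    intro s hs hx
    have h3 : E ⟨s, hs⟩ = ⟨s.1, hx⟩ := Subtype.ext rfl
    rw [← h3, MulEquiv.symm_apply_apply]
    rfl
  refine ⟨pr.range, hfinR, hle,
    ((MonoidHom.snd G (Equiv.Perm X)).comp Sg.subtype).comp E.symm.toMonoidHom, ?_, ?_, ?_⟩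
  · intro γ
    exact hgen ((γ : G), b γ) (Subgroup.subset_closure (Or.inl ⟨γ, rfl⟩)) (hle γ.2)
  · have h4 : ((⟨g, hgG⟩ : G), h) ∈ Sg := Subgroup.subset_closure (Or.inr rfl)
    exact ⟨⟨⟨g, hgG⟩, ⟨⟨_, h4⟩, rfl⟩⟩, hgen _ h4 _⟩
  · intro K hK1 hK2 x
    have h5 : Sg ≤ Subgroup.prod ⊤ K := by
      apply (Subgroup.closure_le _).2
      rintro s (⟨γ, rfl⟩ | hs)
      · exact ⟨trivial, hK1 γ⟩
      · have hs' : s = (⟨g, hgG⟩, h) := hs
        subst hs'
        exact ⟨trivial, hK2⟩
    exact (h5 (E.symm x).2).2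

end Pool.Agent.H94.UD
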